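import Mathlib

/-!
# Project HN (helper159): MP_e5f19a_an, full negative answer (frozen statement S06506, w = 1)

`E = { sum_k e_k q^(k+1) : e_k in {0,1} }`, `q = 1/100`, carries a measure of finite logarithmic energy, but every `f`
holomorphic on the complement of `E` with `|f|^2 <= u`, `u` harmonic, is constant. Proof: Harnack's inequality in the upper
half plane gives `u (child centre + i q rho) <= (2.2 / q) u (centre + i rho)`, so the Cauchy integral over the square around a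
cluster is at most `q * 2 * sqrt (2.2 / q) < 1` times the bound one level up; so it is zero, `f` has no principal part at `E`.
The proofs of the pieces are in the doc comments. Constants are generous.
-/

set_option autoImplicit false

namespace Pool.Agent.R159.HN

open MeasureTheory Set Complex

/-- the ratio -/
noncomputable def q : ℝ := 1 / 100

/-- the point of the Cantor set with the digits `e` -/
noncomputable def pt (e : ℕ → Bool) : ℝ := ∑' k : ℕ, (if e k then q ^ (k + 1) else 0)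

/-- the centre of the cluster of level `m` of `e` -/
noncomputable def ctr (m : ℕ) (e : ℕ → Bool) : ℝ :=
  ∑ k ∈ Finset.range m, (if e k then q ^ (k + 1) else 0)

/-- the Cantor set in the complex plane -/
def E : Set ℂ := Set.range fun e : ℕ → Bool => ((pt e : ℝ) : ℂ)

/-- half side of the squares of level `m` -/
noncomputable def rho (m : ℕ) : ℝ := q ^ m / 4

/-- harmonic functions, in the sense of the frozen statement -/
def Harm (Ω : Set ℂ) (u : ℂ → ℝ) : Prop :=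
  ∀ z ∈ Ω, ∃ r > 0, Metric.ball z r ⊆ Ω ∧ ∃ g : ℂ → ℂ, DifferentiableOn ℂ g (Metric.ball z r) ∧
    ∀ w ∈ Metric.ball z r, u w = (g w).re

/-- the integral of `h` over the boundary of the rectangle `[x0,x1] x [y0,y1]` (as in Mathlib's
`Complex.integral_boundary_rect_eq_zero_of_differentiableOn`) -/
noncomputable def rect (h : ℂ → ℂ) (x0 x1 y0 y1 : ℝ) : ℂ :=
  (((∫ x : ℝ in x0..x1, h (x + y0 * I)) - ∫ x : ℝ in x0..x1, h (x + y1 * I)) +
    I • ∫ y : ℝ in y0..y1, h (x1 + y * I)) - I • ∫ y : ℝ in y0..y1, h (x0 + y * I)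

/-- the integral over the boundary of the square with real centre `a` and half side `r` -/
noncomputable def sq (h : ℂ → ℂ) (a r : ℝ) : ℂ := rect h (a - r) (a + r) (-r) r

/-- the boundary of this square -/
def bd (a r : ℝ) : Set ℂ :=
  {w | (|w.re - a| = r ∧ |w.im| ≤ r) ∨ (|w.re - a| ≤ r ∧ |w.im| = r)}

/-- PIECE CAN. (1) `pt e - ctr m e` is the tail `sum_{k >= m}`, between `0` and `q^(m+1) / (1 - q) = q^m / 99`; (2) by induction on
`m`: if `d`, `e` agree below `m` and differ at `m`, `|pt d - ctr (m+1) e| >= q^(m+1) - q^(m+1)/99`, if they differ below `m`, use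
`|ctr (m+1) e - ctr m e| <= q^(m+1)`; (3) `pt` is continuous (`continuous_tsum`), `isCompact_range`; (4) `Eᶜ` is connected: the set
`{Im > 0} ∪ (reals not in E)` lies between `{Im > 0}` (convex) and its closure, similarly for `{Im < 0}`, and both contain the
point `5`. -/
def S_CAN : Prop :=
  (∀ m (d e : ℕ → Bool), (∀ k < m, d k = e k) → 0 ≤ pt d - ctr m e ∧ pt d - ctr m e ≤ q ^ m / 99) ∧
  (∀ m (d e : ℕ → Bool), ¬ (∀ k < m, d k = e k) → (98 / 100) * q ^ m ≤ |pt d - ctr m e|) ∧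
  IsCompact E ∧ IsOpen Eᶜ ∧ IsConnected Eᶜ

/-- PIECE MEAS. `P` = product (`Measure.infinitePi`) of the uniform measures on `Bool`, `μ = P.map (fun e => (pt e : ℂ))`. With
`A n = {(e, d) : e k = d k for k < n}`: `(P.prod P) (A n) = 2^(-n)`. By S_CAN, off `A n`:
`|pt e - pt d| >= |pt d - ctr n e| - |pt e - ctr n e| >= q^(n+1)`, so if `N` is the least `n` with `(e, d)` not in `A n`,
`|log |pt e - pt d|| <= (N + 1) log 100 <= log 100 * (1 + sum_n 1_{A n} (e, d))`, whose integral is finite; for `e = d` the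
logarithm is `log 0 = 0`. `NoAtoms`: the set of `e` with `pt e = x` is contained in a cylinder of measure `2^(-n)` for each `n`. -/
def S_MEAS : Prop :=
  ∃ μ : MeasureTheory.Measure ℂ, MeasureTheory.IsProbabilityMeasure μ ∧
    MeasureTheory.NoAtoms μ ∧ μ Eᶜ = 0 ∧
    MeasureTheory.Integrable (fun p : ℂ × ℂ => Real.log ‖p.1 - p.2‖) (μ.prod μ)

/-- PIECE HAR (Harnack). `u` is the real part of a holomorphic `G` on the ball (`AnalyticAt.harmonicAt_re` and
`harmonic_is_realOfHolomorphic` in Mathlib.Analysis.Complex.Harmonic.Analytic). `φ = (G - G c) / (G + conj (G c))` maps the ball to the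
unit disc and `φ c = 0`, so by the Schwarz lemma `|A| <= t |A + 2 g|` where `A = G w - G c`, `g = (G c).re > 0`, `t = |w - c| / R`;
squaring: `(1 - t^2) x^2 - 4 t^2 g x - 4 t^2 g^2 <= 0` for `x = A.re`, i.e. `- 2 t g / (1 + t) <= x <= 2 t g / (1 - t)`. -/
def S_HAR : Prop :=
  ∀ (Ω : Set ℂ) (u : ℂ → ℝ) (c : ℂ) (R : ℝ) (w : ℂ), Harm Ω u → Metric.ball c R ⊆ Ω →
    (∀ z ∈ Metric.ball c R, 0 < u z) → w ∈ Metric.ball c R →
    (R - ‖w - c‖) * u w ≤ (R + ‖w - c‖) * u c ∧ (R - ‖w - c‖) * u c ≤ (R + ‖w - c‖) * u w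

/-- PIECE BD. First the chain lemma: if the balls of radius `δ` around all points of the segment `[p, p']` are in `Ω` and
`|p' - p| <= N δ / 2` then `u p' <= 3^N u p` (`N` steps of length `<= δ / 2`, S_HAR with `R = δ`, factor `3`). Then for `w` in `bd a r`:
all points of `bd a r` have distance `>= 0.9 r` from `Ωᶜ`; go from `a + i r` to `w` along the boundary through the corners
`(± r, r)`, `(± r, - r)` (take `δ = 0.9 r`, `N = 3` for a segment of length `<= r`, `N = 5` for a side), at most `3 + 5 + 5` steps. -/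
def S_BD : Prop :=
  ∀ (Ω : Set ℂ) (u : ℂ → ℝ) (a r : ℝ), Harm Ω u → (∀ z ∈ Ω, 0 < u z) → 0 < r →
    (∀ z ∉ Ω, ‖z - a‖ ≤ r / 10 ∨ 3 * r ≤ ‖z - a‖) →
    ∀ w ∈ bd a r, w ∈ Ω ∧ u w ≤ 3 ^ 13 * u (a + r * I)

/-- PIECE RECT. Additivity of `intervalIntegral` (`h` is continuous on the sides, which are in `Ω`) and
`Complex.integral_boundary_rect_eq_zero_of_differentiableOn`. (1) cut along `Re = c`. (2) cut off the left part `[x0,a0] x [y0,y1]`, the
right part, the top and the bottom part, whose integrals are zero. -/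
def S_RECT : Prop :=
  (∀ (Ω : Set ℂ) (h : ℂ → ℂ) (x0 c x1 y0 y1 : ℝ), IsOpen Ω → DifferentiableOn ℂ h Ω →
    x0 ≤ c → c ≤ x1 → y0 ≤ y1 →
    (∀ z ∉ Ω, x0 ≤ z.re → z.re ≤ x1 → z.im ≠ y0 ∧ z.im ≠ y1) →
    rect h x0 x1 y0 y1 = rect h x0 c y0 y1 + rect h c x1 y0 y1) ∧
  (∀ (Ω : Set ℂ) (h : ℂ → ℂ) (x0 a0 a1 x1 y0 b0 b1 y1 : ℝ), IsOpen Ω → DifferentiableOn ℂ h Ω →
    x0 ≤ a0 → a0 < a1 → a1 ≤ x1 → y0 ≤ b0 → b0 < b1 → b1 ≤ y1 →
    (∀ z ∉ Ω, x0 ≤ z.re → z.re ≤ x1 → y0 ≤ z.im → z.im ≤ y1 →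
      a0 < z.re ∧ z.re < a1 ∧ b0 < z.im ∧ z.im < b1) →
    rect h x0 x1 y0 y1 = rect h a0 a1 b0 b1)

/-- PIECE SQ, from S_CAN and S_RECT (`theorem main (hC : S_CAN) (hR : S_RECT) : S_SQ`). For (1) cut the square at
`Re = ctr m e + q^(m+1) / 2` and shrink both halves; a point of `E` with digits `d` in the square agrees with `e` below `m`
(otherwise `|pt d - ctr m e| >= 0.98 q^m > rho m`), so it is within `q^(m+1) / 99` to the right of one of the two centres. -/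
def S_SQ : Prop := ∀ h : ℂ → ℂ, DifferentiableOn ℂ h Eᶜ →
  (∀ (m : ℕ) (e : ℕ → Bool), sq h (ctr m e) (rho m) =
    sq h (ctr m e) (rho (m + 1)) + sq h (ctr m e + q ^ (m + 1)) (rho (m + 1))) ∧
  ∀ R : ℝ, 1 / 4 ≤ R → sq h 0 R = sq h 0 (rho 0)

/-- PIECE W. (1) the integral of `1 / w` over the square is `2 π i` (`1/(x-i) - 1/(x+i) = 2i/(x^2+1)`, the same for the vertical
sides, `integral_inv_one_add_sq`); (2) trivial estimate (four sides of length `2 r`); (3) linearity. -/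
def S_W : Prop :=
  sq (fun w => 1 / w) 0 1 ≠ 0 ∧
  (∀ (h : ℂ → ℂ) (a r M : ℝ), 0 < r → (∀ w ∈ bd a r, ‖h w‖ ≤ M) → ‖sq h a r‖ ≤ 8 * r * M) ∧
  ∀ (h₁ h₂ : ℂ → ℂ) (c₁ c₂ : ℂ) (a r : ℝ), 0 < r → ContinuousOn h₁ (bd a r) → ContinuousOn h₂ (bd a r) →
    sq (fun w => c₁ * h₁ w + c₂ * h₂ w) a r = c₁ * sq h₁ a r + c₂ * sq h₂ a r

/-- PIECE HP, from S_CAN, S_HAR (`theorem main (hC : S_CAN) (hH : S_HAR) : S_HP`). The upper half plane is in `Eᶜ`. (1) `S_HAR` with
centre `c = ctr m e + i rho m`, `R = rho m`, and the points at distance `t R`, `t <= 0.992` (`t^2 = (1-q)^2 + (4 q)^2` or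
`(1 - q)^2`), factor `(1 + t) / (1 - t) <= 300`. (2) centre `i R`, radius `R`, and the point `i / 4`: factor `(2 R - 1/4) / (1/4)`.
(3) the condition of S_BD for the squares of level `m` (from S_CAN) and for the big squares. -/
def S_HP : Prop :=
  (∀ u : ℂ → ℝ, Harm Eᶜ u → (∀ z ∈ Eᶜ, 0 < u z) →
    (∀ (m : ℕ) (e : ℕ → Bool),
      u ((ctr m e : ℝ) + (rho (m + 1) : ℝ) * I) ≤ 300 * u ((ctr m e : ℝ) + (rho m : ℝ) * I) ∧
      u ((ctr m e + q ^ (m + 1) : ℝ) + (rho (m + 1) : ℝ) * I) ≤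
        300 * u ((ctr m e : ℝ) + (rho m : ℝ) * I)) ∧
    ∀ R : ℝ, 1 ≤ R → u ((0 : ℝ) + R * I) ≤ 8 * R * u ((0 : ℝ) + (rho 0 : ℝ) * I)) ∧
  (∀ (m : ℕ) (e : ℕ → Bool), ∀ z ∈ E, ‖z - (ctr m e : ℝ)‖ ≤ rho m / 10 ∨ 3 * rho m ≤ ‖z - (ctr m e : ℝ)‖) ∧
  (∀ R : ℝ, 1 ≤ R → ∀ z ∈ E, ‖z - ((0 : ℝ) : ℂ)‖ ≤ R / 10) ∧ (0 : ℂ) ∈ E

end Pool.Agent.R159.HN
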