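import Mathlib
import Pool.Agent.R159.HN.Stm

/-!
# HN-BD: Harnack chain along the boundary of a square
-/

set_option autoImplicit false

namespace Pool.Agent.R159.HN.BD

open MeasureTheory Set Complex

/-- one step of the chain -/
theorem step (hH : S_HAR) {Ω : Set ℂ} {u : ℂ → ℝ} (hu : Harm Ω u) (hpos : ∀ z ∈ Ω, 0 < u z)
    (c w : ℂ) (δ : ℝ) (hδ : 0 < δ) (hb : Metric.ball c δ ⊆ Ω) (hw : ‖w - c‖ ≤ δ / 2) :
    u w ≤ 3 * u c := by
  have hwb : w ∈ Metric.ball c δ := by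
    rw [Metric.mem_ball, dist_eq_norm]; linarith
  have h1 := (hH Ω u c δ w hu hb (fun z hz => hpos z (hb hz)) hwb).1
  have hc : 0 < u c := hpos c (hb (Metric.mem_ball_self hδ))
  have hw0 : 0 < u w := hpos w (hb hwb)
  have h2 : δ / 2 * u w ≤ (δ - ‖w - c‖) * u w :=
    mul_le_mul_of_nonneg_right (by linarith) hw0.le
  have h3 : (δ + ‖w - c‖) * u c ≤ (3 * δ / 2) * u c :=
    mul_le_mul_of_nonneg_right (by linarith) hc.le
  have h4 : δ / 2 * u w ≤ 3 * δ / 2 * u c := h2.trans (h1.trans h3)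
  have h5 : δ / 2 * u w ≤ δ / 2 * (3 * u c) := by linarith
  exact le_of_mul_le_mul_left h5 (by linarith)

/-- the chain lemma -/
theorem chain (hH : S_HAR) {Ω : Set ℂ} {u : ℂ → ℝ} (hu : Harm Ω u) (hpos : ∀ z ∈ Ω, 0 < u z)
    (p p' : ℂ) (δ : ℝ) (hδ : 0 < δ) (N : ℕ) (hN : 0 < N)
    (hb : ∀ t : ℝ, 0 ≤ t → t ≤ 1 → Metric.ball (p + (t : ℂ) * (p' - p)) δ ⊆ Ω)
    (hl : ‖p' - p‖ ≤ N * (δ / 2)) : u p' ≤ 3 ^ N * u p := by
  have hNR : (0 : ℝ) < N := by exact_mod_cast hN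
  have key : ∀ k : ℕ, k ≤ N → u (p + (((k : ℝ) / N : ℝ) : ℂ) * (p' - p)) ≤ 3 ^ k * u p := by
    intro k
    induction k with
    | zero => intro _; simp
    | succ k ih =>
      intro hk
      have ih' := ih (by omega)
      have hk1 : (k : ℝ) + 1 ≤ N := by exact_mod_cast hk
      have hs := step hH hu hpos (p + (((k : ℝ) / N : ℝ) : ℂ) * (p' - p))
        (p + ((((k + 1 : ℕ) : ℝ) / N : ℝ) : ℂ) * (p' - p)) δ hδ
        (hb _ (by positivity) (by rw [div_le_one hNR]; linarith)) ?_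
      · refine hs.trans ?_
        rw [pow_succ]
        nlinarith
      · have e1 : p + ((((k + 1 : ℕ) : ℝ) / N : ℝ) : ℂ) * (p' - p) -
            (p + (((k : ℝ) / N : ℝ) : ℂ) * (p' - p)) = ((1 / N : ℝ) : ℂ) * (p' - p) := by
          push_cast; ring
        rw [e1, norm_mul, Complex.norm_real, Real.norm_eq_abs, abs_of_pos (by positivity)]
        rw [div_mul_eq_mul_div, one_mul, div_le_iff₀ hNR]
        linarith
  have := key N le_rfl
  rw [div_self hNR.ne'] at this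
  simpa using this

theorem norm_sq_eq (z : ℂ) : ‖z‖ ^ 2 = z.re ^ 2 + z.im ^ 2 := by
  rw [← Complex.normSq_eq_norm_sq, Complex.normSq_apply]; ring

/-- the points of the boundary are far from the complement -/
theorem ball_sub {Ω : Set ℂ} {a r : ℝ} (hr : 0 < r)
    (hΩ : ∀ z ∉ Ω, ‖z - a‖ ≤ r / 10 ∨ 3 * r ≤ ‖z - a‖) (w : ℂ) (hw : w ∈ bd a r) :
    Metric.ball w (9 / 10 * r) ⊆ Ω := by
  intro z hz
  by_contra hn
  rw [Metric.mem_ball, dist_eq_norm] at hz
  have hre : (w - a).re = w.re - a := by simp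
  have him : (w - a).im = w.im := by simp
  have hsq : ‖w - a‖ ^ 2 = (w.re - a) ^ 2 + w.im ^ 2 := by rw [norm_sq_eq, hre, him]
  have hlow : r ≤ ‖w - a‖ := by
    have h0 : r ^ 2 ≤ ‖w - a‖ ^ 2 := by
      rw [hsq]
      rcases hw with ⟨h1, _⟩ | ⟨_, h1⟩
      · rw [← h1, sq_abs]; nlinarith [sq_nonneg w.im]
      · rw [← h1, sq_abs]; nlinarith [sq_nonneg (w.re - a)]
    exact le_of_sq_le_sq h0 (norm_nonneg _)
  have hup : ‖w - a‖ ≤ 2 * r := by
    have h0 : ‖w - a‖ ^ 2 ≤ (2 * r) ^ 2 := by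
      rw [hsq]
      have g1 : |w.re - a| ≤ r := by
        rcases hw with ⟨h1, _⟩ | ⟨h1, _⟩
        · exact h1.le
        · exact h1
      have g2 : |w.im| ≤ r := by
        rcases hw with ⟨_, h1⟩ | ⟨_, h1⟩
        · exact h1
        · exact h1.le
      have g3 : (w.re - a) ^ 2 ≤ r ^ 2 := by rw [← sq_abs]; exact pow_le_pow_left₀ (abs_nonneg _) g1 2
      have g4 : w.im ^ 2 ≤ r ^ 2 := by rw [← sq_abs]; exact pow_le_pow_left₀ (abs_nonneg _) g2 2
      nlinarith
    exact le_of_sq_le_sq h0 (by linarith)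
  have e1 : w - a = (z - a) - (z - w) := by ring
  have e2 : z - a = (z - w) + (w - a) := by ring
  rcases hΩ z hn with h | h
  · have := norm_sub_le (z - (a : ℂ)) (z - w)
    rw [← e1] at this
    linarith
  · have := norm_add_le (z - w) (w - (a : ℂ))
    rw [← e2] at this
    linarith

theorem main (hH : S_HAR) : S_BD := by
  intro Ω u a r hu hpos hr hΩ
  have hball : ∀ w ∈ bd a r, Metric.ball w (9 / 10 * r) ⊆ Ω := ball_sub hr hΩ
  have hδ : 0 < 9 / 10 * r := by linarith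
  have hin : ∀ w ∈ bd a r, w ∈ Ω := fun w hw => hball w hw (Metric.mem_ball_self hδ)
  -- points
  have hmk : ∀ x y : ℝ, ((|x - a| = r ∧ |y| ≤ r) ∨ (|x - a| ≤ r ∧ |y| = r)) →
      (x : ℂ) + (y : ℂ) * I ∈ bd a r := by
    intro x y h
    unfold bd
    rw [Set.mem_ofPred_eq]
    simpa using h
  have hseg : ∀ x y x' y' t : ℝ, ((x : ℂ) + (y : ℂ) * I) + (t : ℂ) *
      (((x' : ℂ) + (y' : ℂ) * I) - ((x : ℂ) + (y : ℂ) * I)) =
      (((x + t * (x' - x) : ℝ)) : ℂ) + (((y + t * (y' - y) : ℝ)) : ℂ) * I := by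
    intro x y x' y' t; push_cast; ring
  have hcv : ∀ (b c d t : ℝ), 0 ≤ t → t ≤ 1 → |b| ≤ d → |c| ≤ d → |b + t * (c - b)| ≤ d := by
    intro b c d t h0 h1 hb hc
    rw [abs_le] at *
    constructor
    · nlinarith
    · nlinarith
  -- horizontal moves
  have hhor : ∀ (x x' y : ℝ) (N : ℕ), 0 < N → |y| = r → |x - a| ≤ r → |x' - a| ≤ r →
      |x' - x| ≤ N * (9 / 10 * r / 2) →
      u ((x' : ℂ) + (y : ℂ) * I) ≤ 3 ^ N * u ((x : ℂ) + (y : ℂ) * I) := by
    intro x x' y N hN hy hx hx' hl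
    refine chain hH hu hpos _ _ _ hδ N hN ?_ ?_
    · intro t h0 h1
      rw [hseg]
      apply hball
      apply hmk
      right
      constructor
      · have := hcv (x - a) (x' - a) r t h0 h1 hx hx'
        convert this using 2; ring
      · simpa using hy
    · have : ((x' : ℂ) + (y : ℂ) * I) - ((x : ℂ) + (y : ℂ) * I) = ((x' - x : ℝ) : ℂ) := by
        push_cast; ring
      rw [this, Complex.norm_real, Real.norm_eq_abs]
      exact hl
  -- vertical moves
  have hver : ∀ (x y y' : ℝ) (N : ℕ), 0 < N → |x - a| = r → |y| ≤ r → |y'| ≤ r →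
      |y' - y| ≤ N * (9 / 10 * r / 2) →
      u ((x : ℂ) + (y' : ℂ) * I) ≤ 3 ^ N * u ((x : ℂ) + (y : ℂ) * I) := by
    intro x y y' N hN hx hy hy' hl
    refine chain hH hu hpos _ _ _ hδ N hN ?_ ?_
    · intro t h0 h1
      rw [hseg]
      apply hball
      apply hmk
      left
      constructor
      · simpa using hx
      · exact hcv y y' r t h0 h1 hy hy'
    · have : ((x : ℂ) + (y' : ℂ) * I) - ((x : ℂ) + (y : ℂ) * I) = ((y' - y : ℝ) : ℂ) * I := by
        push_cast; ring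
      rw [this, norm_mul, Complex.norm_real, Complex.norm_I, mul_one, Real.norm_eq_abs]
      exact hl
  have hrr : |r| = r := abs_of_pos hr
  have hnr : |(-r)| = r := by rw [abs_neg, hrr]
  have htop : (a : ℂ) + (r : ℂ) * I ∈ bd a r := hmk a r (Or.inr ⟨by simp [hr.le], hrr⟩)
  have hU : 0 < u ((a : ℂ) + (r : ℂ) * I) := hpos _ (hin _ htop)
  -- top side
  have s1 : ∀ x : ℝ, |x - a| ≤ r →
      u ((x : ℂ) + (r : ℂ) * I) ≤ 3 ^ 3 * u ((a : ℂ) + (r : ℂ) * I) := by
    intro x hx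
    refine hhor a x r 3 (by norm_num) hrr (by simp [hr.le]) hx (hx.trans ?_)
    push_cast; linarith
  -- the vertical sides
  have s2 : ∀ x y : ℝ, |x - a| = r → |y| ≤ r →
      u ((x : ℂ) + (y : ℂ) * I) ≤ 3 ^ 8 * u ((a : ℂ) + (r : ℂ) * I) := by
    intro x y hx hy
    have h1 := s1 x hx.le
    have h2 := hver x r y 5 (by norm_num) hx hrr.le hy (by
      have := abs_sub y r
      rw [hrr] at this
      refine this.trans ?_
      push_cast; linarith)
    calc u ((x : ℂ) + (y : ℂ) * I) ≤ 3 ^ 5 * u ((x : ℂ) + (r : ℂ) * I) := h2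
      _ ≤ 3 ^ 5 * (3 ^ 3 * u ((a : ℂ) + (r : ℂ) * I)) := by
          exact mul_le_mul_of_nonneg_left h1 (by norm_num)
      _ = 3 ^ 8 * u ((a : ℂ) + (r : ℂ) * I) := by ring
  -- the bottom side
  have s3 : ∀ x : ℝ, |x - a| ≤ r →
      u ((x : ℂ) + ((-r : ℝ) : ℂ) * I) ≤ 3 ^ 13 * u ((a : ℂ) + (r : ℂ) * I) := by
    intro x hx
    have hc : |a + r - a| = r := by rw [add_sub_cancel_left]; exact hrr
    have h1 := s2 (a + r) (-r) hc hnr.le
    have h2 := hhor (a + r) x (-r) 5 (by norm_num) hnr hc.le hx (by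
      have h3 : x - (a + r) = (x - a) - r := by ring
      rw [h3]
      have := abs_sub (x - a) r
      rw [hrr] at this
      refine this.trans ?_
      push_cast; linarith)
    calc u ((x : ℂ) + ((-r : ℝ) : ℂ) * I)
        ≤ 3 ^ 5 * u (((a + r : ℝ) : ℂ) + ((-r : ℝ) : ℂ) * I) := h2
      _ ≤ 3 ^ 5 * (3 ^ 8 * u ((a : ℂ) + (r : ℂ) * I)) := by
          exact mul_le_mul_of_nonneg_left h1 (by norm_num)
      _ = 3 ^ 13 * u ((a : ℂ) + (r : ℂ) * I) := by ring
  intro w hw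
  refine ⟨hin w hw, ?_⟩
  have hwe : w = (w.re : ℂ) + (w.im : ℂ) * I := (Complex.re_add_im w).symm
  rcases hw with ⟨h1, h2⟩ | ⟨h1, h2⟩
  · have := s2 w.re w.im h1 h2
    rw [← hwe] at this
    refine this.trans (mul_le_mul_of_nonneg_right ?_ hU.le)
    norm_num
  · rcases abs_eq hr.le |>.1 h2 with h3 | h3
    · have := s1 w.re h1
      rw [← h3, ← hwe] at this
      rw [← h3]
      refine this.trans (mul_le_mul_of_nonneg_right ?_ ?_)
      · norm_num
      · rw [h3]; exact hU.le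
    · have := s3 w.re h1
      rw [← h3, ← hwe] at this
      exact this

end Pool.Agent.R159.HN.BD
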