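import Mathlib
import Pool.Agent.R159.HN.Stm

/-!
# HN-CAN: the Cantor set
-/

set_option autoImplicit false

namespace Pool.Agent.R159.HN.CAN

open MeasureTheory Set Complex

theorem q0 : (0 : ℝ) < q := by norm_num [q]
theorem q1 : q < (1 : ℝ) := by norm_num [q]

/-- the terms -/
noncomputable def tm (e : ℕ → Bool) (k : ℕ) : ℝ := if e k then q ^ (k + 1) else 0

theorem tm_nonneg (e : ℕ → Bool) (k : ℕ) : 0 ≤ tm e k := by
  unfold tm; split_ifs
  · exact pow_nonneg q0.le _
  · exact le_rfl

theorem tm_le (e : ℕ → Bool) (k : ℕ) : tm e k ≤ q ^ (k + 1) := by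
  unfold tm; split_ifs
  · exact le_rfl
  · exact pow_nonneg q0.le _

theorem summ_q (m : ℕ) : Summable (fun k : ℕ => q ^ (k + m + 1)) := by
  have h := (summable_geometric_of_lt_one q0.le q1).mul_left (q ^ (m + 1))
  refine h.congr fun k => ?_
  rw [← pow_add]; congr 1; ring

theorem summ (e : ℕ → Bool) : Summable (tm e) :=
  Summable.of_nonneg_of_le (tm_nonneg e) (tm_le e) (by simpa using summ_q 0)

theorem tsum_q (m : ℕ) : ∑' k : ℕ, q ^ (k + m + 1) = q ^ m / 99 := by
  have h : ∀ k : ℕ, q ^ (k + m + 1) = q ^ (m + 1) * q ^ k := by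
    intro k; rw [← pow_add]; congr 1; ring
  simp_rw [h]
  rw [tsum_mul_left, tsum_geometric_of_lt_one q0.le q1, pow_succ]
  unfold q
  ring

theorem pt_eq (e : ℕ → Bool) : pt e = ∑' k, tm e k := rfl

theorem ctr_eq (m : ℕ) (e : ℕ → Bool) : ctr m e = ∑ k ∈ Finset.range m, tm e k := rfl

theorem ctr_congr (m : ℕ) (d e : ℕ → Bool) (h : ∀ k < m, d k = e k) : ctr m d = ctr m e := by
  unfold ctr
  refine Finset.sum_congr rfl fun k hk => ?_
  rw [h k (Finset.mem_range.1 hk)]

theorem tail (m : ℕ) (d e : ℕ → Bool) (h : ∀ k < m, d k = e k) :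
    0 ≤ pt d - ctr m e ∧ pt d - ctr m e ≤ q ^ m / 99 := by
  have h1 : ctr m d + ∑' k, tm d (k + m) = pt d := (summ d).sum_add_tsum_nat_add m
  rw [ctr_congr m d e h] at h1
  have h2 : pt d - ctr m e = ∑' k, tm d (k + m) := by linarith
  rw [h2]
  constructor
  · exact tsum_nonneg fun k => tm_nonneg d _
  · rw [← tsum_q m]
    exact Summable.tsum_le_tsum (fun k => tm_le d (k + m)) ((summable_nat_add_iff m).2 (summ d))
      (summ_q m)

theorem ctr_eq_pt (m : ℕ) (e : ℕ → Bool) : ctr m e = pt (fun k => decide (k < m) && e k) := by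
  rw [pt_eq, ctr_eq]
  rw [tsum_eq_sum (s := Finset.range m)]
  · refine Finset.sum_congr rfl fun k hk => ?_
    have := Finset.mem_range.1 hk
    simp [tm, this]
  · intro k hk
    have : ¬ k < m := fun h => hk (Finset.mem_range.2 h)
    simp [tm, this]

theorem far (m : ℕ) (d e : ℕ → Bool) (h : ¬ (∀ k < m, d k = e k)) :
    (98 / 100) * q ^ m ≤ |pt d - ctr m e| := by
  classical
  push Not at h
  have hex : ∃ j, j < m ∧ d j ≠ e j := h
  obtain ⟨hjm, hj⟩ := Nat.find_spec hex
  set j := Nat.find hex with hjdef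
  have hlt : ∀ k < j, d k = e k := by
    intro k hk
    by_contra hne
    exact Nat.find_min hex hk ⟨hk.trans hjm, hne⟩
  have t1 := tail (j + 1) d d (fun _ _ => rfl)
  have t2 := tail (j + 1) (fun k => decide (k < m) && e k) e (by
    intro k hk
    have : k < m := by omega
    simp [this])
  rw [← ctr_eq_pt] at t2
  have s1 : ctr (j + 1) d = ctr j d + tm d j := Finset.sum_range_succ _ _
  have s2 : ctr (j + 1) e = ctr j e + tm e j := Finset.sum_range_succ _ _
  have s3 : ctr j d = ctr j e := ctr_congr j d e hlt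
  have hq : 0 < q ^ (j + 1) := pow_pos q0 _
  have hqm : q ^ m ≤ q ^ (j + 1) := pow_le_pow_of_le_one q0.le q1.le hjm
  have hcase : (tm d j = q ^ (j + 1) ∧ tm e j = 0) ∨ (tm d j = 0 ∧ tm e j = q ^ (j + 1)) := by
    unfold tm
    cases hd : d j <;> cases he : e j
    · exact absurd (hd.trans he.symm) hj
    · right; simp
    · left; simp
    · exact absurd (hd.trans he.symm) hj
  rcases hcase with ⟨c1, c2⟩ | ⟨c1, c2⟩
  · rw [c1] at s1
    rw [c2] at s2
    refine le_trans ?_ (le_abs_self _)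
    linarith [t1.1, t1.2, t2.1, t2.2]
  · rw [c1] at s1
    rw [c2] at s2
    refine le_trans ?_ (neg_le_abs _)
    linarith [t1.1, t1.2, t2.1, t2.2]

theorem cont_pt : Continuous pt := by
  have : pt = fun e => ∑' k, tm e k := rfl
  rw [this]
  refine continuous_tsum (u := fun k => q ^ (k + 1)) ?_ ?_ ?_
  · intro k
    exact (continuous_of_discreteTopology (f := fun b : Bool => if b then q ^ (k + 1) else (0 : ℝ))).comp
      (continuous_apply k)
  · simpa using summ_q 0
  · intro k e
    rw [Real.norm_eq_abs, abs_of_nonneg (tm_nonneg e k)]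
    exact tm_le e k

theorem compactE : IsCompact E :=
  isCompact_range (Complex.continuous_ofReal.comp cont_pt)

theorem E_im {z : ℂ} (hz : z ∈ E) : z.im = 0 := by
  obtain ⟨e, rfl⟩ := hz
  simp

theorem E_re {z : ℂ} (hz : z ∈ E) : 0 ≤ z.re ∧ z.re ≤ 1 / 99 := by
  obtain ⟨e, rfl⟩ := hz
  have := tail 0 e e (fun _ _ => rfl)
  simp only [ctr, Finset.range_zero, Finset.sum_empty, sub_zero, pow_zero] at this
  simpa using this

theorem conn : IsConnected Eᶜ := by
  let A : Set ℂ := {z | 0 ≤ z.im} ∩ Eᶜ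
  let B : Set ℂ := {z | z.im ≤ 0} ∩ Eᶜ
  have h5 : (5 : ℂ) ∈ Eᶜ := by
    intro h
    have := (E_re h).2
    norm_num at this
  have hA : IsPreconnected A := by
    refine (convex_halfSpace_im_gt 0).isPreconnected.subset_closure ?_ ?_
    · intro z hz
      have h2 : 0 < z.im := hz
      have h3 : 0 ≤ z.im := h2.le
      refine ⟨h3, fun hE => ?_⟩
      have h1 := E_im hE
      rw [h1] at h2
      exact lt_irrefl _ h2
    · rw [Complex.closure_setOfPred_lt_im]
      exact fun z hz => hz.1
  have hB : IsPreconnected B := by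
    refine (convex_halfSpace_im_lt 0).isPreconnected.subset_closure ?_ ?_
    · intro z hz
      have h2 : z.im < 0 := hz
      have h3 : z.im ≤ 0 := h2.le
      refine ⟨h3, fun hE => ?_⟩
      have h1 := E_im hE
      rw [h1] at h2
      exact lt_irrefl _ h2
    · rw [Complex.closure_setOfPred_im_lt]
      exact fun z hz => hz.1
  have hU : Eᶜ = A ∪ B := by
    ext z
    constructor
    · intro hz
      rcases le_total 0 z.im with h | h
      · left; exact ⟨h, hz⟩
      · right; exact ⟨h, hz⟩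
    · rintro (h | h)
      · exact h.2
      · exact h.2
  refine ⟨⟨5, h5⟩, ?_⟩
  rw [hU]
  refine IsPreconnected.union 5 ⟨?_, h5⟩ ⟨?_, h5⟩ hA hB
  · simp
  · simp

theorem main : S_CAN :=
  ⟨tail, far, compactE, compactE.isClosed.isOpen_compl, conn⟩

end Pool.Agent.R159.HN.CAN
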