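import Mathlib
import Pool.Agent.R159.HN.Stm

/-!
# Project HN: final assembly (helper159)
-/

set_option autoImplicit false

namespace Pool.Agent.R159.HN.FIN

open Complex Set Filter Topology

theorem q_pos : (0 : ℝ) < q := by unfold q; norm_num

theorem rho_pos (m : ℕ) : 0 < rho m := by unfold rho; have := q_pos; positivity

theorem rho_succ (m : ℕ) : rho (m + 1) = rho m / 100 := by unfold rho q; rw [pow_succ]; ring

theorem rho_le (m : ℕ) : rho m ≤ 1 / 4 := by
  unfold rho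
  have : q ^ m ≤ 1 := pow_le_one₀ q_pos.le (by unfold q; norm_num)
  linarith

theorem ctr_false (m : ℕ) (e : ℕ → Bool) : ctr (m + 1) (Function.update e m false) = ctr m e := by
  unfold ctr
  rw [Finset.sum_range_succ, Function.update_self]
  simp only [Bool.false_eq_true, if_false, add_zero]
  refine Finset.sum_congr rfl fun k hk => ?_
  rw [Function.update_of_ne (Finset.mem_range.1 hk).ne]

theorem ctr_true (m : ℕ) (e : ℕ → Bool) :
    ctr (m + 1) (Function.update e m true) = ctr m e + q ^ (m + 1) := by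
  unfold ctr
  rw [Finset.sum_range_succ, Function.update_self]
  simp only [if_true]
  congr 1
  refine Finset.sum_congr rfl fun k hk => ?_
  rw [Function.update_of_ne (Finset.mem_range.1 hk).ne]

theorem ctr_zero (e : ℕ → Bool) : ctr 0 e = 0 := by
  unfold ctr; simp

theorem abs_ctr (hC : S_CAN) (m : ℕ) (e : ℕ → Bool) : |ctr m e| ≤ 1 / 99 := by
  have h1 := hC.1 m e e fun _ _ => rfl
  have h2 := hC.1 0 e e fun _ _ => rfl
  rw [ctr_zero, pow_zero] at h2
  have h3 : q ^ m ≤ 1 := pow_le_one₀ q_pos.le (by unfold q; norm_num)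
  rw [abs_le]
  constructor <;> linarith [h1.1, h1.2, h2.1, h2.2]

/-- points of the small squares are in the unit disc -/
theorem bd_small (hC : S_CAN) (m : ℕ) (e : ℕ → Bool) {w : ℂ} (hw : w ∈ bd (ctr m e) (rho m)) :
    ‖w‖ ≤ 1 := by
  have h1 := abs_ctr hC m e
  have h2 := rho_le m
  have h3 := rho_pos m
  have h4 : ‖w‖ ≤ |w.re| + |w.im| := Complex.norm_le_abs_re_add_abs_im w
  have h5 : |w.re - ctr m e| ≤ rho m ∧ |w.im| ≤ rho m := by
    rcases hw with ⟨h, h'⟩ | ⟨h, h'⟩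
    · exact ⟨h.le, h'⟩
    · exact ⟨h, h'.le⟩
  have h6 : |w.re| ≤ |w.re - ctr m e| + |ctr m e| := by
    have := abs_add_le (w.re - ctr m e) (ctr m e)
    simpa using this
  linarith [h5.1, h5.2]

theorem norm_bd {a r : ℝ} {w : ℂ} (hw : w ∈ bd a r) : r ≤ ‖w - a‖ := by
  have h1 : |(w - a).re| ≤ ‖w - a‖ := Complex.abs_re_le_norm _
  have h2 : |(w - a).im| ≤ ‖w - a‖ := Complex.abs_im_le_norm _
  rw [Complex.sub_re, Complex.ofReal_re] at h1
  rw [Complex.sub_im, Complex.ofReal_im, sub_zero] at h2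
  rcases hw with ⟨h, _⟩ | ⟨_, h⟩
  · rw [h] at h1; exact h1
  · rw [h] at h2; exact h2

section main

variable {f : ℂ → ℂ} {U : ℂ → ℝ}

theorem f_le_of {M : ℝ} {w : ℂ} {x : ℝ} (h : ‖f w‖ ^ 2 ≤ U w) (h' : U w ≤ M ^ 2 * x) (hM : 0 ≤ M) :
    ‖f w‖ ≤ M * Real.sqrt x := by
  have h1 : ‖f w‖ ≤ Real.sqrt (M ^ 2 * x) := Real.le_sqrt_of_sq_le (h.trans h')
  rwa [Real.sqrt_mul (sq_nonneg _), Real.sqrt_sq hM] at h1

/-- the integrals around the clusters vanish -/
theorem small_zero (hC : S_CAN) (hB : S_BD) (hS : S_SQ) (hW : S_W) (hP : S_HP)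
    (hU : Harm Eᶜ U) (hpos : ∀ z ∈ Eᶜ, 0 < U z) (hf : ∀ z ∈ Eᶜ, ‖f z‖ ^ 2 ≤ U z)
    {g : ℂ → ℂ} (hg : DifferentiableOn ℂ g Eᶜ) {B : ℝ} (hB0 : 0 ≤ B)
    (hgf : ∀ w ∈ Eᶜ, ‖w‖ ≤ 1 → ‖g w‖ ≤ B + B * ‖f w‖) {R : ℝ} (hR : 1 / 4 ≤ R) :
    sq g 0 R = 0 := by
  -- the reference points
  set V : ℕ → (ℕ → Bool) → ℝ := fun m e => Real.sqrt (U ((ctr m e : ℝ) + (rho m : ℝ) * I)) with hV
  have hbase : ∀ m e, ‖sq g (ctr m e) (rho m)‖ ≤ rho m * (8 * (B + B * (3 ^ 7 * V m e))) := by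
    intro m e
    have hcond : ∀ z ∉ Eᶜ, ‖z - ((ctr m e : ℝ) : ℂ)‖ ≤ rho m / 10 ∨ 3 * rho m ≤ ‖z - ((ctr m e : ℝ) : ℂ)‖ := by
      intro z hz
      exact hP.2.1 m e z (not_not.1 hz)
    have h1 := hB Eᶜ U (ctr m e) (rho m) hU hpos (rho_pos m) hcond
    have h2 := hW.2.1 g (ctr m e) (rho m) (B + B * (3 ^ 7 * V m e)) (rho_pos m) fun w hw => by
      obtain ⟨hwE, hUw⟩ := h1 w hw
      refine (hgf w hwE (bd_small hC m e hw)).trans ?_
      have h3 : ‖f w‖ ≤ 3 ^ 7 * V m e := by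
        refine f_le_of (hf w hwE) (hUw.trans ?_) (by norm_num)
        have h4 : 0 < U ((ctr m e : ℝ) + (rho m : ℝ) * I) := by
          apply hpos
          have h5 : ((ctr m e : ℝ) + (rho m : ℝ) * I : ℂ) ∈ bd (ctr m e) (rho m) := by
            right
            simp [abs_of_pos (rho_pos m), (rho_pos m).le]
          exact (h1 _ h5).1
        have h6 : (3 : ℝ) ^ 13 ≤ ((3 : ℝ) ^ 7) ^ 2 := by norm_num
        exact mul_le_mul_of_nonneg_right h6 h4.le
      have := mul_le_mul_of_nonneg_left h3 hB0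
      linarith
    refine h2.trans (le_of_eq ?_)
    ring
  have hstep : ∀ (n m : ℕ) (e : ℕ → Bool),
      ‖sq g (ctr m e) (rho m)‖ ≤ rho m * ((1 / 2) ^ n * (8 * (B + B * (3 ^ 7 * V m e)))) := by
    intro n
    induction n with
    | zero =>
      intro m e
      rw [pow_zero, one_mul]
      exact hbase m e
    | succ n ih =>
      intro m e
      rw [(hS g hg).1 m e]
      have h1 := ih (m + 1) (Function.update e m false)
      have h2 := ih (m + 1) (Function.update e m true)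
      rw [ctr_false] at h1
      rw [ctr_true] at h2
      obtain ⟨h3, h4⟩ := (hP.1 U hU hpos).1 m e
      have key : ∀ x y : ℝ, x ≤ 300 * y → Real.sqrt x ≤ 18 * Real.sqrt y := by
        intro x y hxy
        rcases le_total 0 y with hy | hy
        · have : Real.sqrt (18 ^ 2 * y) = 18 * Real.sqrt y := by
            rw [Real.sqrt_mul (by norm_num), Real.sqrt_sq (by norm_num)]
          rw [← this]
          apply Real.sqrt_le_sqrt
          nlinarith
        · rw [Real.sqrt_eq_zero_of_nonpos (by nlinarith), Real.sqrt_eq_zero_of_nonpos hy]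
          simp
      have h5 : V (m + 1) (Function.update e m false) ≤ 18 * V m e := by
        simp only [hV]
        rw [ctr_false]
        exact key _ _ h3
      have h6 : V (m + 1) (Function.update e m true) ≤ 18 * V m e := by
        simp only [hV]
        rw [ctr_true]
        exact key _ _ h4
      have hV0 : 0 ≤ V m e := Real.sqrt_nonneg _
      have hpw : (0 : ℝ) < (1 / 2) ^ n := by positivity
      have hr : 0 < rho m := rho_pos m
      rw [rho_succ] at h1 h2 ⊢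
      have h7 : rho m / 100 * ((1 / 2) ^ n * (8 * (B + B * (3 ^ 7 * V (m + 1) (Function.update e m false))))) ≤
          rho m / 100 * ((1 / 2) ^ n * (8 * (B + B * (3 ^ 7 * (18 * V m e))))) := by
        gcongr
      have h8 : rho m / 100 * ((1 / 2) ^ n * (8 * (B + B * (3 ^ 7 * V (m + 1) (Function.update e m true))))) ≤
          rho m / 100 * ((1 / 2) ^ n * (8 * (B + B * (3 ^ 7 * (18 * V m e))))) := by
        gcongr
      have h9 : 2 * (rho m / 100 * ((1 / 2) ^ n * (8 * (B + B * (3 ^ 7 * (18 * V m e)))))) ≤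
          rho m * ((1 / 2) ^ (n + 1) * (8 * (B + B * (3 ^ 7 * V m e)))) := by
        rw [pow_succ (1 / 2 : ℝ) n]
        have h10 : 2 * (1 / 100) * (B + B * (3 ^ 7 * (18 * V m e))) ≤
            (1 / 2) * (B + B * (3 ^ 7 * V m e)) := by
          have h11 : 0 ≤ B * (3 ^ 7 * V m e) := by positivity
          nlinarith
        have h12 : 0 ≤ rho m * (1 / 2) ^ n * 8 := by positivity
        have := mul_le_mul_of_nonneg_left h10 h12
        nlinarith
      calc ‖sq g (ctr m e) (rho m / 100) + sq g (ctr m e + q ^ (m + 1)) (rho m / 100)‖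
          ≤ ‖sq g (ctr m e) (rho m / 100)‖ + ‖sq g (ctr m e + q ^ (m + 1)) (rho m / 100)‖ :=
            norm_add_le _ _
        _ ≤ _ := by linarith
  rw [(hS g hg).2 R hR]
  set e0 : ℕ → Bool := fun _ => false
  have h1 : ∀ n : ℕ, ‖sq g 0 (rho 0)‖ ≤ rho 0 * ((1 / 2) ^ n * (8 * (B + B * (3 ^ 7 * V 0 e0)))) := by
    intro n
    have := hstep n 0 e0
    rwa [ctr_zero] at this
  have h2 : Tendsto (fun n : ℕ => rho 0 * ((1 / 2 : ℝ) ^ n * (8 * (B + B * (3 ^ 7 * V 0 e0))))) atTop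
      (𝓝 (rho 0 * (0 * (8 * (B + B * (3 ^ 7 * V 0 e0)))))) :=
    ((tendsto_pow_atTop_nhds_zero_of_lt_one (by norm_num) (by norm_num)).mul_const _).const_mul _
  rw [zero_mul, mul_zero] at h2
  have h3 := ge_of_tendsto' h2 h1
  exact norm_le_zero_iff.1 h3

/-- the function is constant far away -/
theorem far_const (hC : S_CAN) (hB : S_BD) (hS : S_SQ) (hW : S_W) (hP : S_HP)
    (hU : Harm Eᶜ U) (hpos : ∀ z ∈ Eᶜ, 0 < U z) (hf : ∀ z ∈ Eᶜ, ‖f z‖ ^ 2 ≤ U z)
    (hd : DifferentiableOn ℂ f Eᶜ) {z z' : ℂ} (hz : 2 ≤ ‖z‖) (hz' : 2 ≤ ‖z'‖) : f z = f z' := by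
  have hEo : IsOpen Eᶜ := hC.2.2.2.1
  have hEsmall : ∀ w ∈ E, ‖w‖ ≤ 1 / 10 := by
    intro w hw
    have := hP.2.2.1 1 le_rfl w hw
    simpa using this
  have hout : ∀ w : ℂ, 1 ≤ ‖w‖ → w ∈ Eᶜ := fun w hw hwE => by
    have := hEsmall w hwE
    linarith
  have hzE : z ∈ Eᶜ := hout z (by linarith)
  have hzE' : z' ∈ Eᶜ := hout z' (by linarith)
  have hg1 : DifferentiableOn ℂ (dslope f z) Eᶜ :=
    (Complex.differentiableOn_dslope (hEo.mem_nhds hzE)).2 hd
  have hg2 : DifferentiableOn ℂ (dslope f z') Eᶜ :=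
    (Complex.differentiableOn_dslope (hEo.mem_nhds hzE')).2 hd
  have hds : ∀ {x w : ℂ}, w ≠ x → dslope f x w = (f w - f x) / (w - x) := by
    intro x w hwx
    rw [dslope_of_ne _ hwx, slope_def_field]
  set k : ℂ → ℂ := fun w => dslope f z w - dslope f z' w with hk
  have hkd : DifferentiableOn ℂ k Eᶜ := hg1.sub hg2
  have hkz : ∀ R : ℝ, 1 / 4 ≤ R → sq k 0 R = 0 := by
    intro R hR
    refine small_zero hC hB hS hW hP hU hpos hf hkd (B := 2 + ‖f z‖ + ‖f z'‖) (by positivity)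
      (fun w hw hw1 => ?_) hR
    have key : ∀ x : ℂ, 2 ≤ ‖x‖ → ‖dslope f x w‖ ≤ ‖f w‖ + ‖f x‖ := by
      intro x hx
      have h1 : 1 ≤ ‖w - x‖ := by
        have := norm_sub_norm_le x w
        rw [norm_sub_rev] at this
        linarith
      have h2 : w ≠ x := by
        rintro rfl
        simp at h1
        linarith
      rw [hds h2, norm_div]
      have h3 : ‖f w - f x‖ ≤ ‖f w‖ + ‖f x‖ := norm_sub_le _ _
      calc ‖f w - f x‖ / ‖w - x‖ ≤ ‖f w - f x‖ / 1 :=
            div_le_div_of_nonneg_left (norm_nonneg _) one_pos h1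
        _ ≤ _ := by rw [div_one]; exact h3
    have h1 := key z hz
    have h2 := key z' hz'
    have h3 : ‖k w‖ ≤ ‖dslope f z w‖ + ‖dslope f z' w‖ := norm_sub_le _ _
    have h4 := norm_nonneg (f w)
    have h5 := norm_nonneg (f z)
    have h6 := norm_nonneg (f z')
    nlinarith [mul_nonneg h5 h4, mul_nonneg h6 h4]
  set W : ℂ := sq (fun w => 1 / w) 0 1 with hWdef
  have hinv : DifferentiableOn ℂ (fun w : ℂ => 1 / w) Eᶜ := by
    intro w hw
    have hw0 : w ≠ 0 := by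
      rintro rfl
      exact hw hP.2.2.2
    exact ((differentiableAt_const _).div differentiableAt_id hw0).differentiableWithinAt
  have hWR : ∀ R : ℝ, 1 / 4 ≤ R → sq (fun w => 1 / w) 0 R = W := by
    intro R hR
    rw [hWdef, (hS _ hinv).2 R hR, (hS _ hinv).2 1 (by norm_num)]
  -- growth
  set x0 : ℝ := U ((0 : ℝ) + (rho 0 : ℝ) * I) with hx0
  have hgrow : ∀ R : ℝ, 1 ≤ R → ∀ w ∈ bd 0 R, w ∈ Eᶜ ∧ ‖f w‖ ≤ 3 ^ 8 * Real.sqrt (R * x0) := by
    intro R hR w hw
    have h1 := hB Eᶜ U 0 R hU hpos (by linarith) (fun y hy => Or.inl (hP.2.2.1 R hR y (not_not.1 hy))) w hw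
    refine ⟨h1.1, f_le_of (hf w h1.1) (h1.2.trans ?_) (by norm_num)⟩
    have h2 := (hP.1 U hU hpos).2 R hR
    have h3 : 0 < U ((0 : ℝ) + (R : ℝ) * I) := by
      apply hpos
      apply hout
      simp [abs_of_nonneg (by linarith : 0 ≤ R)]
      exact hR
    have h4 : 0 < R * x0 := by
      have : 0 < 8 * (R * x0) := by
        refine h3.trans_le (h2.trans (le_of_eq ?_))
        ring
      linarith
    calc 3 ^ 13 * U ((0 : ℝ) + (R : ℝ) * I) ≤ 3 ^ 13 * (8 * R * x0) := by gcongr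
      _ ≤ (3 ^ 8) ^ 2 * (R * x0) := by nlinarith
  -- the estimate
  set D : ℝ := ‖z - z'‖ with hD
  set C2 : ℝ := ‖f z‖ * ‖z‖ + ‖f z'‖ * ‖z'‖ with hC2
  have hD0 : 0 ≤ D := norm_nonneg _
  have hC20 : 0 ≤ C2 := by positivity
  have hest : ∀ R : ℝ, 2 * (‖z‖ + ‖z'‖) ≤ R →
      ‖f z - f z'‖ * ‖W‖ ≤ 8 * R * ((4 * D * (3 ^ 8 * Real.sqrt (R * x0)) + 2 * C2) / R ^ 2) := by
    intro R hR
    have hR1 : 1 ≤ R := by linarith
    have hR0 : 0 < R := by linarith
    have hnw : ∀ w ∈ bd 0 R, R ≤ ‖w‖ := fun w hw => by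
      have := norm_bd hw
      simpa using this
    have hw1 : ∀ w ∈ bd 0 R, R / 2 ≤ ‖w - z‖ := fun w hw => by
      have h1 := hnw w hw
      have h2 := norm_sub_norm_le w z
      have h3 := norm_nonneg z'
      linarith
    have hw2 : ∀ w ∈ bd 0 R, R / 2 ≤ ‖w - z'‖ := fun w hw => by
      have h1 := hnw w hw
      have h2 := norm_sub_norm_le w z'
      have h3 := norm_nonneg z
      linarith
    have hsub : bd 0 R ⊆ Eᶜ := fun w hw => hout w (hR1.trans (hnw w hw))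
    have hlin := hW.2.2 k (fun w => 1 / w) 1 (f z - f z') 0 R hR0 (hkd.continuousOn.mono hsub)
      (hinv.continuousOn.mono hsub)
    rw [hkz R (by linarith), hWR R (by linarith), mul_zero, zero_add] at hlin
    have hb := hW.2.1 (fun w => 1 * k w + (f z - f z') * (1 / w)) 0 R
      ((4 * D * (3 ^ 8 * Real.sqrt (R * x0)) + 2 * C2) / R ^ 2) hR0 (fun w hw => by
        have n0 := hnw w hw
        have n1 := hw1 w hw
        have n2 := hw2 w hw
        have nf := (hgrow R hR1 w hw).2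
        have e0 : w ≠ 0 := norm_pos_iff.1 (by linarith)
        have e1 : w - z ≠ 0 := norm_pos_iff.1 (by linarith)
        have e2 : w - z' ≠ 0 := norm_pos_iff.1 (by linarith)
        have hid : 1 * k w + (f z - f z') * (1 / w) =
            f w * (z - z') / ((w - z) * (w - z')) - f z * z / (w * (w - z)) +
              f z' * z' / (w * (w - z')) := by
          simp only [hk]
          rw [hds (sub_ne_zero.1 e1), hds (sub_ne_zero.1 e2)]
          field_simp
          ring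
        rw [hid]
        have t1 : ‖f w * (z - z') / ((w - z) * (w - z'))‖ ≤
            4 * D * (3 ^ 8 * Real.sqrt (R * x0)) / R ^ 2 := by
          rw [norm_div, norm_mul, norm_mul, ← hD, div_le_div_iff₀ (by positivity) (by positivity)]
          have h1 : R / 2 * (R / 2) ≤ ‖w - z‖ * ‖w - z'‖ := by gcongr
          have h2 : ‖f w‖ * D ≤ (3 ^ 8 * Real.sqrt (R * x0)) * D := by gcongr
          have h3 : 0 ≤ (3 ^ 8 * Real.sqrt (R * x0)) * D := by positivity
          calc ‖f w‖ * D * R ^ 2 ≤ (3 ^ 8 * Real.sqrt (R * x0)) * D * R ^ 2 := by gcongr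
            _ = 4 * D * (3 ^ 8 * Real.sqrt (R * x0)) * (R / 2 * (R / 2)) := by ring
            _ ≤ _ := by gcongr
        have t2 : ∀ x : ℂ, R / 2 ≤ ‖w - x‖ → ‖f x * x / (w * (w - x))‖ ≤ 2 * (‖f x‖ * ‖x‖) / R ^ 2 := by
          intro x hx
          have hx0 : 0 < ‖w - x‖ := by linarith
          have hw0 : 0 < ‖w‖ := by linarith
          rw [norm_div, norm_mul, norm_mul, div_le_div_iff₀ (by positivity) (by positivity)]
          calc ‖f x‖ * ‖x‖ * R ^ 2 = 2 * (‖f x‖ * ‖x‖) * (R * (R / 2)) := by ring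
            _ ≤ _ := by gcongr
        have t3 := t2 z n1
        have t4 := t2 z' n2
        calc _ ≤ ‖f w * (z - z') / ((w - z) * (w - z'))‖ + ‖f z * z / (w * (w - z))‖ +
              ‖f z' * z' / (w * (w - z'))‖ := by
              refine (norm_add_le _ _).trans ?_
              gcongr
              exact norm_sub_le _ _
          _ ≤ 4 * D * (3 ^ 8 * Real.sqrt (R * x0)) / R ^ 2 + 2 * (‖f z‖ * ‖z‖) / R ^ 2 +
              2 * (‖f z'‖ * ‖z'‖) / R ^ 2 := by linarith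
          _ = _ := by rw [hC2]; ring)
    rw [hlin, norm_mul] at hb
    exact hb
  have hlim : Tendsto (fun R : ℝ => 8 * R * ((4 * D * (3 ^ 8 * Real.sqrt (R * x0)) + 2 * C2) / R ^ 2))
      atTop (𝓝 0) := by
    have h1 : Tendsto (fun R : ℝ => 32 * D * 3 ^ 8 * Real.sqrt x0 * (Real.sqrt R)⁻¹ + 16 * C2 * R⁻¹) atTop
        (𝓝 (32 * D * 3 ^ 8 * Real.sqrt x0 * 0 + 16 * C2 * 0)) := by
      refine Tendsto.add (Tendsto.const_mul _ ?_) (Tendsto.const_mul _ tendsto_inv_atTop_zero)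
      exact tendsto_inv_atTop_zero.comp Real.tendsto_sqrt_atTop
    rw [mul_zero, mul_zero, add_zero] at h1
    refine h1.congr' ?_
    filter_upwards [eventually_gt_atTop 0] with R hR
    have h2 : Real.sqrt R * Real.sqrt R = R := Real.mul_self_sqrt hR.le
    have h3 : Real.sqrt R ≠ 0 := (Real.sqrt_pos.2 hR).ne'
    rw [Real.sqrt_mul hR.le]
    have h4 : R ^ 2 = R * (Real.sqrt R * Real.sqrt R) := by rw [h2]; ring
    have h5 : 8 * R * ((4 * D * (3 ^ 8 * (Real.sqrt R * Real.sqrt x0)) + 2 * C2) / R ^ 2) =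
        32 * D * 3 ^ 8 * Real.sqrt x0 * (Real.sqrt R * R / R ^ 2) + 16 * C2 * (R / R ^ 2) := by ring
    rw [h5]
    congr 2
    · rw [h4]
      field_simp
    · field_simp
  have hfin : ‖f z - f z'‖ * ‖W‖ ≤ 0 := by
    refine ge_of_tendsto hlim ?_
    filter_upwards [eventually_ge_atTop (2 * (‖z‖ + ‖z'‖))] with R hR
    exact hest R hR
  have hW0 : 0 < ‖W‖ := norm_pos_iff.2 hW.1
  have : ‖f z - f z'‖ ≤ 0 := by
    by_contra hcon
    rw [not_le] at hcon
    have := mul_pos hcon hW0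
    linarith
  exact sub_eq_zero.1 (norm_le_zero_iff.1 this)

end main

theorem core (hC : S_CAN) (hB : S_BD) (hS : S_SQ) (hW : S_W) (hP : S_HP) (f : ℂ → ℂ) (u : ℂ → ℝ)
    (hd : DifferentiableOn ℂ f Eᶜ) (hu : Harm Eᶜ u) (hf : ∀ z ∈ Eᶜ, ‖f z‖ ^ 2 ≤ u z) :
    ∀ z ∈ Eᶜ, ∀ w ∈ Eᶜ, f z = f w := by
  have hU : Harm Eᶜ (fun z => u z + 1) := by
    intro z hz
    obtain ⟨r, hr, hsub, g, hg, hgu⟩ := hu z hz
    refine ⟨r, hr, hsub, fun w => g w + 1, hg.add_const _, fun w hw => ?_⟩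
    simp [hgu w hw]
  have hpos : ∀ z ∈ Eᶜ, 0 < u z + 1 := fun z hz => by
    have := hf z hz
    have := sq_nonneg ‖f z‖
    linarith
  have hf' : ∀ z ∈ Eᶜ, ‖f z‖ ^ 2 ≤ (fun z => u z + 1) z := fun z hz => by
    have := hf z hz
    simp only
    linarith
  have hfar : ∀ z : ℂ, 2 ≤ ‖z‖ → f z = f 3 := fun z hz =>
    far_const hC hB hS hW hP hU hpos hf' hd hz (by norm_num)
  have hEo : IsOpen Eᶜ := hC.2.2.2.1
  have h3 : (3 : ℂ) ∈ Eᶜ := fun h => by
    have := hP.2.2.1 1 le_rfl 3 h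
    simp at this
    norm_num at this
  have heq : EqOn f (fun _ => f 3) Eᶜ := by
    refine AnalyticOnNhd.eqOn_of_preconnected_of_eventuallyEq (hd.analyticOnNhd hEo)
      (analyticOnNhd_const) hC.2.2.2.2.isPreconnected h3 ?_
    have h4 : Metric.ball (3 : ℂ) 1 ∈ 𝓝 (3 : ℂ) := Metric.ball_mem_nhds _ one_pos
    filter_upwards [h4] with z hz
    apply hfar
    have h5 : ‖z - 3‖ < 1 := by simpa [dist_eq_norm] using hz
    have h6 := norm_sub_norm_le (3 : ℂ) z
    rw [norm_sub_rev] at h6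
    have h7 : ‖(3 : ℂ)‖ = 3 := by simp
    linarith
  intro z hz w hw
  rw [heq hz, heq hw]

end Pool.Agent.R159.HN.FIN
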