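import Mathlib
import Pool.Agent.R159.HN.Stm

set_option autoImplicit false

namespace Pool.Agent.R159.HN.HAR

open Set Complex Metric InnerProductSpace Topology

theorem main : S_HAR := by
  intro Ω u c R w hu hR hpos hw
  have hR0 : 0 < R := nonempty_ball.1 ⟨w, hw⟩
  have hharm : HarmonicOnNhd u (ball c R) := by
    intro x hx
    obtain ⟨r, hr, _, g, hg, hug⟩ := hu x (hR hx)
    have h1 : AnalyticAt ℂ g x := hg.analyticAt (ball_mem_nhds x hr)
    have h2 : u =ᶠ[𝓝 x] fun z => (g z).re :=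
      Filter.eventually_of_mem (ball_mem_nhds x hr) hug
    exact (harmonicAt_congr_nhds h2).2 h1.harmonicAt_re
  obtain ⟨F, hF, hFu⟩ := hharm.exists_analyticOnNhd_ball_re_eq
  have hc : c ∈ ball c R := mem_ball_self hR0
  have hFre : ∀ z ∈ ball c R, (F z).re = u z := fun z hz => hFu hz
  have hsq : ∀ z ∈ ball c R, ‖F z - F c‖ ^ 2 = (u z - u c) ^ 2 + ((F z).im - (F c).im) ^ 2 ∧
      ‖F z + (starRingEnd ℂ) (F c)‖ ^ 2 = (u z + u c) ^ 2 + ((F z).im - (F c).im) ^ 2 := by
    intro z hz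
    rw [← Complex.normSq_eq_norm_sq, ← Complex.normSq_eq_norm_sq, Complex.normSq_apply,
      Complex.normSq_apply]
    simp only [Complex.sub_re, Complex.sub_im, Complex.add_re, Complex.add_im, Complex.conj_re,
      Complex.conj_im, hFre z hz, hFre c hc]
    constructor <;> ring
  have hne : ∀ z ∈ ball c R, F z + (starRingEnd ℂ) (F c) ≠ 0 := by
    intro z hz h
    have h1 := congrArg Complex.re h
    simp only [Complex.add_re, Complex.conj_re, hFre z hz, hFre c hc, Complex.zero_re] at h1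
    have := hpos z hz
    have := hpos c hc
    linarith
  have hle : ∀ z ∈ ball c R, ‖F z - F c‖ ≤ ‖F z + (starRingEnd ℂ) (F c)‖ := by
    intro z hz
    refine le_of_sq_le_sq ?_ (norm_nonneg _)
    rw [(hsq z hz).1, (hsq z hz).2]
    nlinarith [mul_pos (hpos z hz) (hpos c hc)]
  let φ : ℂ → ℂ := fun z => (F z - F c) / (F z + (starRingEnd ℂ) (F c))
  have hφc : φ c = 0 := by
    show (F c - F c) / _ = 0
    rw [sub_self, zero_div]
  have hφd : DifferentiableOn ℂ φ (ball c R) := by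
    have h1 : DifferentiableOn ℂ F (ball c R) := hF.differentiableOn
    exact (h1.sub_const _).div (h1.add_const _) hne
  have hφm : MapsTo φ (ball c R) (closedBall (φ c) 1) := by
    intro z hz
    rw [hφc, mem_closedBall, dist_zero_right]
    show ‖(F z - F c) / (F z + (starRingEnd ℂ) (F c))‖ ≤ 1
    rw [norm_div]
    exact div_le_one_of_le₀ (hle z hz) (norm_nonneg _)
  have hS := Complex.dist_le_div_mul_dist_of_mapsTo_ball hφd hφm hw
  rw [hφc, dist_zero_right, dist_eq_norm] at hS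
  have hS2 : ‖F w - F c‖ * R ≤ ‖w - c‖ * ‖F w + (starRingEnd ℂ) (F c)‖ := by
    have h1 : ‖F w - F c‖ / ‖F w + (starRingEnd ℂ) (F c)‖ ≤ 1 / R * ‖w - c‖ := by
      rw [← norm_div]
      exact hS
    have h2 : 0 < ‖F w + (starRingEnd ℂ) (F c)‖ := norm_pos_iff.2 (hne w hw)
    rw [div_le_iff₀ h2] at h1
    have h3 := mul_le_mul_of_nonneg_right h1 hR0.le
    have h4 : 1 / R * ‖w - c‖ * ‖F w + (starRingEnd ℂ) (F c)‖ * R
        = ‖w - c‖ * ‖F w + (starRingEnd ℂ) (F c)‖ := by
      field_simp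
    rwa [h4] at h3
  have hd : ‖w - c‖ < R := by
    rw [mem_ball, dist_eq_norm] at hw
    exact hw
  have hd0 : 0 ≤ ‖w - c‖ := norm_nonneg _
  generalize ‖w - c‖ = d at *
  have hx := hpos w hw
  have hg := hpos c hc
  have h5 : (R * (u w - u c)) ^ 2 ≤ (d * (u w + u c)) ^ 2 := by
    have h6 := pow_le_pow_left₀ (by positivity) hS2 2
    rw [mul_pow, mul_pow, (hsq w hw).1, (hsq w hw).2] at h6
    have h7 : d ^ 2 ≤ R ^ 2 := pow_le_pow_left₀ hd0 hd.le 2
    nlinarith [mul_nonneg (sub_nonneg.2 h7) (sq_nonneg ((F w).im - (F c).im))]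
  have h8 := abs_le_of_sq_le_sq' h5 (by positivity)
  constructor
  · linarith [h8.2]
  · linarith [h8.1]

end Pool.Agent.R159.HN.HAR
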