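import Mathlib
import Pool.Agent.R159.HN.Stm

/-!
# Project HN, piece HP (helper567)
-/

set_option autoImplicit false

namespace Pool.Agent.R159.HN.HP

open MeasureTheory Set Complex
open Pool.Agent.R159.HN

theorem mem_compl {z : ℂ} (hz : 0 < z.im) : z ∈ Eᶜ := by
  rintro ⟨e, he⟩
  rw [← he] at hz
  simp at hz

theorem ball_sub {c : ℂ} {R : ℝ} (hc : c.im = R) : Metric.ball c R ⊆ Eᶜ := by
  intro z hz
  refine mem_compl ?_
  have h1 : |(z - c).im| < R := lt_of_le_of_lt (Complex.abs_im_le_norm _) (by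
    rw [← dist_eq_norm]; exact Metric.mem_ball.1 hz)
  rw [Complex.sub_im, hc] at h1
  have := (abs_lt.1 h1).1
  linarith

theorem rho_pos (m : ℕ) : 0 < rho m := by
  unfold rho q
  positivity

theorem rho_succ (m : ℕ) : rho (m + 1) = rho m / 100 := by
  unfold rho q
  rw [pow_succ]
  ring

theorem q_succ (m : ℕ) : q ^ (m + 1) = rho m / 25 := by
  unfold rho q
  rw [pow_succ]
  ring

theorem hp_main (hH : S_HAR) (u : ℂ → ℝ) (hu : Harm Eᶜ u) (hpos : ∀ z ∈ Eᶜ, 0 < u z) (c w : ℂ)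
    (R t : ℝ) (hR : 0 < R) (hc : c.im = R) (hw : ‖w - c‖ ≤ t * R) (ht : t ≤ 992 / 1000) :
    u w ≤ 300 * u c := by
  have hlt : ‖w - c‖ < R := by
    refine lt_of_le_of_lt hw ?_
    nlinarith
  have hwb : w ∈ Metric.ball c R := by
    rw [Metric.mem_ball, dist_eq_norm]
    exact hlt
  have h1 := (hH Eᶜ u c R w hu (ball_sub hc) (fun z hz => hpos z (ball_sub hc hz)) hwb).1
  have hu1 : 0 < u w := hpos w (ball_sub hc hwb)
  have hu2 : 0 < u c := hpos c (ball_sub hc (Metric.mem_ball_self hR))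
  have h2 : ‖w - c‖ ≤ 992 / 1000 * R := hw.trans (mul_le_mul_of_nonneg_right ht hR.le)
  have h3 : 8 / 1000 * R * u w ≤ (R - ‖w - c‖) * u w :=
    mul_le_mul_of_nonneg_right (by linarith) hu1.le
  have h4 : (R + ‖w - c‖) * u c ≤ 1992 / 1000 * R * u c :=
    mul_le_mul_of_nonneg_right (by linarith) hu2.le
  have h5 : R * (8 / 1000 * u w) ≤ R * (1992 / 1000 * u c) := by
    nlinarith
  have h6 := le_of_mul_le_mul_left h5 hR
  linarith

theorem main (hC : S_CAN) (hH : S_HAR) : S_HP := by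
  obtain ⟨hC1, hC2, -, -, -⟩ := hC
  refine ⟨?_, ?_, ?_, ?_⟩
  · intro u hu hpos
    refine ⟨?_, ?_⟩
    · intro m e
      have hr := rho_pos m
      constructor
      · refine hp_main hH u hu hpos _ _ (rho m) (99 / 100) hr (by simp) ?_ (by norm_num)
        have e1 : ((ctr m e : ℝ) : ℂ) + (rho (m + 1) : ℝ) * I - (((ctr m e : ℝ) : ℂ) +
            (rho m : ℝ) * I) = ((-(99 / 100 * rho m) : ℝ) : ℂ) * I := by
          rw [rho_succ]
          push_cast
          ring
        rw [e1, norm_mul, Complex.norm_I, mul_one, Complex.norm_real, Real.norm_eq_abs, abs_neg,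
          abs_of_pos (by positivity)]
      · refine hp_main hH u hu hpos _ _ (rho m) (992 / 1000) hr (by simp) ?_ le_rfl
        have e1 : ((ctr m e + q ^ (m + 1) : ℝ) : ℂ) + (rho (m + 1) : ℝ) * I -
            (((ctr m e : ℝ) : ℂ) + (rho m : ℝ) * I) =
            ((rho m : ℝ) : ℂ) * (((1 / 25 : ℝ) : ℂ) + ((-(99 / 100) : ℝ) : ℂ) * I) := by
          rw [rho_succ, q_succ]
          push_cast
          ring
        rw [e1, norm_mul, Complex.norm_real, Real.norm_eq_abs, abs_of_pos hr, mul_comm]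
        refine mul_le_mul_of_nonneg_right ?_ hr.le
        rw [Complex.norm_add_mul_I]
        rw [Real.sqrt_le_left (by norm_num)]
        norm_num
    · intro R hR
      have hR0 : (0 : ℝ) < R := by linarith
      have hc : (((0 : ℝ) : ℂ) + (R : ℝ) * I).im = R := by simp
      have hrho : rho 0 = 1 / 4 := by unfold rho; norm_num
      have e1 : (((0 : ℝ) : ℂ) + (rho 0 : ℝ) * I) - (((0 : ℝ) : ℂ) + (R : ℝ) * I) =
          ((-(R - 1 / 4) : ℝ) : ℂ) * I := by
        rw [hrho]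
        push_cast
        ring
      have hn : ‖(((0 : ℝ) : ℂ) + (rho 0 : ℝ) * I) - (((0 : ℝ) : ℂ) + (R : ℝ) * I)‖ = R - 1 / 4 := by
        rw [e1, norm_mul, Complex.norm_I, mul_one, Complex.norm_real, Real.norm_eq_abs, abs_neg,
          abs_of_pos (by linarith)]
      have hwb : (((0 : ℝ) : ℂ) + (rho 0 : ℝ) * I) ∈ Metric.ball (((0 : ℝ) : ℂ) + (R : ℝ) * I) R := by
        rw [Metric.mem_ball, dist_eq_norm, hn]
        linarith
      have h1 := (hH Eᶜ u _ R _ hu (ball_sub hc) (fun z hz => hpos z (ball_sub hc hz)) hwb).2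
      rw [hn] at h1
      have hu1 : 0 < u (((0 : ℝ) : ℂ) + (rho 0 : ℝ) * I) := hpos _ (ball_sub hc hwb)
      have hu2 : 0 < u (((0 : ℝ) : ℂ) + (R : ℝ) * I) :=
        hpos _ (ball_sub hc (Metric.mem_ball_self hR0))
      nlinarith
  · rintro m e z ⟨d, rfl⟩
    have hr := rho_pos m
    have hq : q ^ m = 4 * rho m := by unfold rho; ring
    have e1 : ‖((pt d : ℝ) : ℂ) - ((ctr m e : ℝ) : ℂ)‖ = |pt d - ctr m e| := by
      rw [← Complex.ofReal_sub, Complex.norm_real, Real.norm_eq_abs]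
    simp only []
    rw [e1]
    by_cases h : ∀ k < m, d k = e k
    · left
      obtain ⟨h1, h2⟩ := hC1 m d e h
      rw [abs_of_nonneg h1]
      rw [hq] at h2
      linarith
    · right
      have h1 := hC2 m d e h
      rw [hq] at h1
      linarith
  · rintro R hR z ⟨d, rfl⟩
    obtain ⟨h1, h2⟩ := hC1 0 d d (fun k hk => rfl)
    have hc0 : ctr 0 d = 0 := by simp [ctr]
    rw [hc0, sub_zero] at h1 h2
    have e1 : ‖((pt d : ℝ) : ℂ) - ((0 : ℝ) : ℂ)‖ = pt d := by
      rw [← Complex.ofReal_sub, sub_zero, Complex.norm_real, Real.norm_eq_abs, abs_of_nonneg h1]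
    simp only []
    rw [e1]
    rw [pow_zero] at h2
    linarith
  · refine ⟨fun _ => false, ?_⟩
    simp [pt]

end Pool.Agent.R159.HN.HP
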