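import Mathlib
import Pool.Agent.R159.HN.Stm

/-!
# Piece MEAS: a measure of finite logarithmic energy on the Cantor set
-/

set_option autoImplicit false

namespace Pool.Agent.R159.HN.MEAS

open MeasureTheory Set Complex
open scoped ENNReal

/-- the fair coin -/
noncomputable def coin : Measure Bool :=
  (2⁻¹ : ℝ≥0∞) • Measure.dirac true + (2⁻¹ : ℝ≥0∞) • Measure.dirac false

instance : IsProbabilityMeasure coin := by
  refine ⟨?_⟩
  simp only [coin, Measure.add_apply, Measure.smul_apply, measure_univ, smul_eq_mul, mul_one]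
  exact ENNReal.inv_two_add_inv_two

theorem coin_singleton (b : Bool) : coin {b} = 2⁻¹ := by
  cases b <;> simp [coin]

/-- the product measure -/
noncomputable def P : Measure (ℕ → Bool) := Measure.infinitePi fun _ => coin

instance : IsProbabilityMeasure P := by
  unfold P
  infer_instance

theorem P_cyl (n : ℕ) (e : ℕ → Bool) : P {d | ∀ k < n, e k = d k} = (2⁻¹ : ℝ≥0∞) ^ n := by
  have h : {d : ℕ → Bool | ∀ k < n, e k = d k} =
      Set.pi (Finset.range n : Finset ℕ) (fun k => {e k}) := by
    ext d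
    simp only [mem_ofPred_eq, Set.mem_pi, Finset.coe_range, mem_Iio, mem_singleton_iff]
    exact ⟨fun h k hk => (h k hk).symm, fun h k hk => (h k hk).symm⟩
  rw [h, P, Measure.infinitePi_pi _ fun k _ => measurableSet_singleton _]
  simp [coin_singleton]

/-- pairs which agree below `n` -/
def A (n : ℕ) : Set ((ℕ → Bool) × (ℕ → Bool)) := {p | ∀ k < n, p.1 k = p.2 k}

theorem measurableSet_A (n : ℕ) : MeasurableSet (A n) := by
  have h : A n = ⋂ k ∈ Finset.range n, {p : (ℕ → Bool) × (ℕ → Bool) | p.1 k = p.2 k} := by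
    ext p
    simp [A]
  rw [h]
  refine Finset.measurableSet_biInter _ fun k _ => ?_
  exact measurableSet_eq_fun ((measurable_pi_apply k).comp measurable_fst)
    ((measurable_pi_apply k).comp measurable_snd)

theorem PP_A (n : ℕ) : (P.prod P) (A n) = (2⁻¹ : ℝ≥0∞) ^ n := by
  rw [Measure.prod_apply (measurableSet_A n)]
  have : ∀ e : ℕ → Bool, P (Prod.mk e ⁻¹' (A n)) = (2⁻¹ : ℝ≥0∞) ^ n := fun e => P_cyl n e
  simp only [this]
  simp

theorem q_pos : 0 < q := by norm_num [q]

theorem term_le (e : ℕ → Bool) (k : ℕ) : ‖(if e k then q ^ (k + 1) else 0 : ℝ)‖ ≤ q ^ (k + 1) := by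
  have := pow_pos q_pos (k + 1)
  split_ifs
  · rw [Real.norm_eq_abs, abs_of_pos this]
  · simpa using this.le

theorem pt_continuous : Continuous pt := by
  unfold pt
  refine continuous_tsum (u := fun k => q ^ (k + 1)) (fun k => ?_) ?_ fun k e => term_le e k
  · have h1 : Continuous fun e : ℕ → Bool => e k := continuous_apply k
    have h2 : Continuous fun b : Bool => (if b then q ^ (k + 1) else 0 : ℝ) :=
      continuous_of_discreteTopology
    exact h2.comp h1
  · have : Summable fun k : ℕ => q ^ k :=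
      summable_geometric_of_lt_one q_pos.le (by norm_num [q])
    exact (summable_nat_add_iff 1).2 this

/-- the embedding -/
noncomputable def phi (e : ℕ → Bool) : ℂ := ((pt e : ℝ) : ℂ)

theorem phi_measurable : Measurable phi :=
  (Complex.continuous_ofReal.comp pt_continuous).measurable

theorem lowb (hC : S_CAN) (N : ℕ) (e d : ℕ → Bool) (h : e N ≠ d N) :
    q ^ (N + 2) ≤ |pt e - pt d| := by
  obtain ⟨c1, c2, -⟩ := hC
  have h1 := c1 (N + 1) e e fun _ _ => rfl
  have h2 := c2 (N + 1) d e fun hh => h (hh N (Nat.lt_succ_self N)).symm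
  have h3 : |pt e - ctr (N + 1) e| ≤ q ^ (N + 1) / 99 := by
    rw [abs_of_nonneg h1.1]; exact h1.2
  have h4 : |pt d - ctr (N + 1) e| ≤ |pt e - pt d| + |pt e - ctr (N + 1) e| := by
    have : pt d - ctr (N + 1) e = -(pt e - pt d) + (pt e - ctr (N + 1) e) := by ring
    rw [this]
    refine (abs_add_le _ _).trans ?_
    rw [abs_neg]
  have h5 : q ^ (N + 2) = q ^ (N + 1) * (1 / 100) := by
    rw [pow_succ q (N + 1)]; rfl
  have h6 := pow_pos q_pos (N + 1)
  rw [h5]
  linarith

theorem upb (hC : S_CAN) (e d : ℕ → Bool) : |pt e - pt d| ≤ 1 := by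
  obtain ⟨c1, -⟩ := hC
  have h1 := c1 0 e e fun _ _ => rfl
  have h2 := c1 0 d d fun _ _ => rfl
  simp only [ctr, Finset.range_zero, Finset.sum_empty, sub_zero, pow_zero] at h1 h2
  rw [abs_le]
  constructor <;> linarith [h1.1, h1.2, h2.1, h2.2]

theorem pointwise (hC : S_CAN) (e d : ℕ → Bool) :
    ‖Real.log ‖phi e - phi d‖‖ₑ ≤ ENNReal.ofReal (Real.log 100) *
      (1 + ∑' n : ℕ, (A n).indicator (fun _ => (1 : ℝ≥0∞)) (e, d)) := by
  have hnorm : ‖phi e - phi d‖ = |pt e - pt d| := by
    unfold phi
    rw [← Complex.ofReal_sub, Complex.norm_real, Real.norm_eq_abs]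
  rw [hnorm]
  by_cases hed : e = d
  · subst hed
    simp
  · have hex : ∃ N, e N ≠ d N := by
      by_contra hcon
      push Not at hcon
      exact hed (funext hcon)
    classical
    set N := Nat.find hex with hN
    have hN1 : e N ≠ d N := Nat.find_spec hex
    have hN2 : ∀ k < N, e k = d k := fun k hk => by
      have := Nat.find_min hex hk
      simpa using this
    have h1 := lowb hC N e d hN1
    have h2 := upb hC e d
    have hq := pow_pos q_pos (N + 2)
    have h3 : |Real.log (|pt e - pt d|)| ≤ ((N + 2 : ℕ) : ℝ) * Real.log 100 := by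
      have h4 : Real.log (q ^ (N + 2)) ≤ Real.log (|pt e - pt d|) := Real.log_le_log hq h1
      have h5 : Real.log (|pt e - pt d|) ≤ 0 := Real.log_nonpos (abs_nonneg _) h2
      rw [abs_of_nonpos h5]
      rw [Real.log_pow] at h4
      have h6 : Real.log q = -Real.log 100 := by
        rw [q, one_div, Real.log_inv]
      rw [h6] at h4
      linarith
    have hlog : 0 ≤ Real.log 100 := Real.log_nonneg (by norm_num)
    have h7 : ((N + 1 : ℕ) : ℝ≥0∞) ≤ ∑' n : ℕ, (A n).indicator (fun _ => (1 : ℝ≥0∞)) (e, d) := by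
      refine le_trans ?_ (ENNReal.sum_le_tsum (Finset.range (N + 1)))
      have : ∀ n ∈ Finset.range (N + 1), (A n).indicator (fun _ => (1 : ℝ≥0∞)) (e, d) = 1 := by
        intro n hn
        rw [Finset.mem_range] at hn
        refine Set.indicator_of_mem ?_ _
        intro k hk
        exact hN2 k (by omega)
      rw [Finset.sum_congr rfl this]
      simp
    calc ‖Real.log (|pt e - pt d|)‖ₑ = ENNReal.ofReal |Real.log (|pt e - pt d|)| := by
          exact Real.enorm_eq_ofReal_abs _
      _ ≤ ENNReal.ofReal (((N + 2 : ℕ) : ℝ) * Real.log 100) := ENNReal.ofReal_le_ofReal h3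
      _ = ENNReal.ofReal (Real.log 100) * (1 + ((N + 1 : ℕ) : ℝ≥0∞)) := by
          rw [mul_comm, ENNReal.ofReal_mul hlog, ENNReal.ofReal_natCast]
          congr 1
          push_cast
          ring
      _ ≤ _ := by gcongr

theorem total : ∫⁻ p : (ℕ → Bool) × (ℕ → Bool), ENNReal.ofReal (Real.log 100) *
      (1 + ∑' n : ℕ, (A n).indicator (fun _ => (1 : ℝ≥0∞)) p) ∂(P.prod P) < ⊤ := by
  have hm : ∀ n, Measurable ((A n).indicator (fun _ => (1 : ℝ≥0∞))) := fun n =>
    measurable_const.indicator (measurableSet_A n)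
  rw [lintegral_const_mul _ (by fun_prop)]
  refine ENNReal.mul_lt_top ENNReal.ofReal_lt_top ?_
  rw [lintegral_add_left measurable_const, lintegral_tsum fun n => (hm n).aemeasurable]
  have h1 : ∀ n, ∫⁻ p, (A n).indicator (fun _ => (1 : ℝ≥0∞)) p ∂(P.prod P) =
      (2⁻¹ : ℝ≥0∞) ^ n := by
    intro n
    rw [lintegral_indicator (measurableSet_A n)]
    simp [PP_A]
  simp only [h1]
  rw [ENNReal.tsum_geometric]
  simp

theorem main (hC : S_CAN) : S_MEAS := by
  have hE : MeasurableSet E := hC.2.2.1.isClosed.measurableSet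
  refine ⟨P.map phi, Measure.isProbabilityMeasure_map phi_measurable.aemeasurable, ⟨?_⟩, ?_, ?_⟩
  · intro x
    rw [Measure.map_apply phi_measurable (measurableSet_singleton x)]
    by_cases hx : ∃ e, phi e = x
    · obtain ⟨e, he⟩ := hx
      have hsub : ∀ n, phi ⁻¹' {x} ⊆ {d | ∀ k < n, e k = d k} := by
        intro n d hd k _
        by_contra hcon
        have h1 := lowb hC k e d hcon
        have h2 : phi d = phi e := by rw [he]; exact hd
        have h3 : pt d = pt e := Complex.ofReal_injective h2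
        rw [h3, sub_self, abs_zero] at h1
        exact absurd (pow_pos q_pos (k + 2)) (not_lt.2 h1)
      have hle : ∀ n : ℕ, P (phi ⁻¹' {x}) ≤ (2⁻¹ : ℝ≥0∞) ^ n := fun n =>
        (measure_mono (hsub n)).trans (P_cyl n e).le
      have ht : Filter.Tendsto (fun n : ℕ => (2⁻¹ : ℝ≥0∞) ^ n) Filter.atTop (nhds 0) :=
        ENNReal.tendsto_pow_atTop_nhds_zero_of_lt_one (by simp)
      exact le_antisymm (ge_of_tendsto' ht hle) bot_le
    · have : phi ⁻¹' {x} = ∅ := by
        ext e
        simp only [mem_preimage, mem_singleton_iff, mem_empty_iff_false, iff_false]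
        exact fun h => hx ⟨e, h⟩
      rw [this, measure_empty]
  · rw [Measure.map_apply phi_measurable hE.compl]
    have : phi ⁻¹' Eᶜ = ∅ := by
      ext e
      simp only [mem_preimage, mem_compl_iff, mem_empty_iff_false, iff_false, not_not]
      exact ⟨e, rfl⟩
    rw [this, measure_empty]
  · rw [Measure.map_prod_map P P phi_measurable phi_measurable]
    have hmeas : Measurable fun p : ℂ × ℂ => Real.log ‖p.1 - p.2‖ :=
      Real.measurable_log.comp (measurable_fst.sub measurable_snd).norm
    rw [integrable_map_measure hmeas.aestronglyMeasurable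
      (phi_measurable.prodMap phi_measurable).aemeasurable]
    refine ⟨(hmeas.comp (phi_measurable.prodMap phi_measurable)).aestronglyMeasurable, ?_⟩
    rw [hasFiniteIntegral_iff_enorm]
    refine lt_of_le_of_lt (lintegral_mono fun p => ?_) total
    exact pointwise hC p.1 p.2

end Pool.Agent.R159.HN.MEAS
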