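import Mathlib
import Pool.Agent.R159.HN.Stm

/-!
# Project HN, piece RECT: cutting and shrinking rectangles (helper159)
-/

set_option autoImplicit false

namespace Pool.Agent.R159.HN.RECT

open Complex Set

variable {Ω : Set ℂ} {h : ℂ → ℂ}

theorem int_h (hd : DifferentiableOn ℂ h Ω) {x0 x1 y : ℝ} (hx : x0 ≤ x1)
    (hin : ∀ x : ℝ, x0 ≤ x → x ≤ x1 → ((x : ℂ) + y * I) ∈ Ω) :
    IntervalIntegrable (fun x : ℝ => h (x + y * I)) MeasureTheory.volume x0 x1 := by
  apply ContinuousOn.intervalIntegrable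
  rw [uIcc_of_le hx]
  refine hd.continuousOn.comp (by fun_prop) fun x hx' => hin x hx'.1 hx'.2

theorem int_v (hd : DifferentiableOn ℂ h Ω) {x y0 y1 : ℝ} (hy : y0 ≤ y1)
    (hin : ∀ y : ℝ, y0 ≤ y → y ≤ y1 → ((x : ℂ) + y * I) ∈ Ω) :
    IntervalIntegrable (fun y : ℝ => h (x + y * I)) MeasureTheory.volume y0 y1 := by
  apply ContinuousOn.intervalIntegrable
  rw [uIcc_of_le hy]
  refine hd.continuousOn.comp (by fun_prop) fun y hy' => hin y hy'.1 hy'.2

theorem cut_v (hd : DifferentiableOn ℂ h Ω) {x0 c x1 y0 y1 : ℝ}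
    (h0 : x0 ≤ c) (h1 : c ≤ x1)
    (hz : ∀ z ∉ Ω, x0 ≤ z.re → z.re ≤ x1 → z.im ≠ y0 ∧ z.im ≠ y1) :
    rect h x0 x1 y0 y1 = rect h x0 c y0 y1 + rect h c x1 y0 y1 := by
  have hin : ∀ y : ℝ, (y = y0 ∨ y = y1) → ∀ x : ℝ, x0 ≤ x → x ≤ x1 → ((x : ℂ) + y * I) ∈ Ω := by
    intro y hy x hx hx'
    by_contra hcon
    have := hz _ hcon (by simpa using hx) (by simpa using hx')
    simp at this
    rcases hy with rfl | rfl
    · exact this.1 rfl
    · exact this.2 rfl
  have e : ∀ y : ℝ, (y = y0 ∨ y = y1) → (∫ x : ℝ in x0..x1, h (x + y * I)) =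
      (∫ x : ℝ in x0..c, h (x + y * I)) + ∫ x : ℝ in c..x1, h (x + y * I) := by
    intro y hy
    rw [intervalIntegral.integral_add_adjacent_intervals
      (int_h hd h0 fun x hx hx' => hin y hy x hx (hx'.trans h1))
      (int_h hd h1 fun x hx hx' => hin y hy x (h0.trans hx) hx')]
  unfold rect
  rw [e y0 (Or.inl rfl), e y1 (Or.inr rfl)]
  ring

theorem cut_h (hd : DifferentiableOn ℂ h Ω) {x0 x1 y0 c y1 : ℝ}
    (h0 : y0 ≤ c) (h1 : c ≤ y1)
    (hz : ∀ z ∉ Ω, y0 ≤ z.im → z.im ≤ y1 → z.re ≠ x0 ∧ z.re ≠ x1) :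
    rect h x0 x1 y0 y1 = rect h x0 x1 y0 c + rect h x0 x1 c y1 := by
  have hin : ∀ x : ℝ, (x = x0 ∨ x = x1) → ∀ y : ℝ, y0 ≤ y → y ≤ y1 → ((x : ℂ) + y * I) ∈ Ω := by
    intro x hx y hy hy'
    by_contra hcon
    have := hz _ hcon (by simpa using hy) (by simpa using hy')
    simp at this
    rcases hx with rfl | rfl
    · exact this.1 rfl
    · exact this.2 rfl
  have e : ∀ x : ℝ, (x = x0 ∨ x = x1) → (∫ y : ℝ in y0..y1, h (x + y * I)) =
      (∫ y : ℝ in y0..c, h (x + y * I)) + ∫ y : ℝ in c..y1, h (x + y * I) := by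
    intro x hx
    rw [intervalIntegral.integral_add_adjacent_intervals
      (int_v hd h0 fun y hy hy' => hin x hx y hy (hy'.trans h1))
      (int_v hd h1 fun y hy hy' => hin x hx y (h0.trans hy) hy')]
  unfold rect
  rw [e x0 (Or.inl rfl), e x1 (Or.inr rfl)]
  simp only [smul_eq_mul]
  ring

theorem zero (hd : DifferentiableOn ℂ h Ω) {x0 x1 y0 y1 : ℝ} (hx : x0 ≤ x1) (hy : y0 ≤ y1)
    (hz : ∀ z : ℂ, x0 ≤ z.re → z.re ≤ x1 → y0 ≤ z.im → z.im ≤ y1 → z ∈ Ω) :
    rect h x0 x1 y0 y1 = 0 := by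
  have := Complex.integral_boundary_rect_eq_zero_of_differentiableOn h (⟨x0, y0⟩ : ℂ) (⟨x1, y1⟩ : ℂ)
    (hd.mono (by
      intro z hz'
      rw [mem_reProdIm] at hz'
      simp only [uIcc_of_le hx, uIcc_of_le hy, mem_Icc] at hz'
      exact hz z hz'.1.1 hz'.1.2 hz'.2.1 hz'.2.2))
  exact this

theorem main : S_RECT := by
  refine ⟨fun Ω h x0 c x1 y0 y1 hΩ hd h0 h1 _ hz => cut_v hd h0 h1 hz, ?_⟩
  intro Ω h x0 a0 a1 x1 y0 b0 b1 y1 hΩ hd hx0 ha hx1 hy0 hb hy1 hz
  rw [cut_v hd hx0 (ha.le.trans hx1) (fun z hzΩ h0 h1 => by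
    constructor
    · intro he
      have := hz z hzΩ h0 h1 he.ge (by linarith)
      linarith [this.2.2.1]
    · intro he
      have := hz z hzΩ h0 h1 (by linarith) he.le
      linarith [this.2.2.2]),
    zero hd hx0 (by linarith) (fun z h1 h2 h3 h4 => by
      by_contra hcon
      have := hz z hcon h1 (by linarith) h3 h4
      linarith [this.1]), zero_add,
    cut_v hd ha.le hx1 (fun z hzΩ h0 h1 => by
      constructor
      · intro he
        have := hz z hzΩ (by linarith) h1 he.ge (by linarith)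
        linarith [this.2.2.1]
      · intro he
        have := hz z hzΩ (by linarith) h1 (by linarith) he.le
        linarith [this.2.2.2]),
    zero (x0 := a1) (x1 := x1) hd hx1 (by linarith) (fun z h1 h2 h3 h4 => by
      by_contra hcon
      have := hz z hcon (by linarith) h2 h3 h4
      linarith [this.2.1]), add_zero,
    cut_h hd hy0 (hb.le.trans hy1) (fun z hzΩ h0 h1 => by
      constructor
      · intro he
        have := hz z hzΩ (by linarith) (by linarith) h0 h1
        linarith [this.1]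
      · intro he
        have := hz z hzΩ (by linarith) (by linarith) h0 h1
        linarith [this.2.1]),
    zero (y0 := y0) (y1 := b0) hd ha.le hy0 (fun z h1 h2 h3 h4 => by
      by_contra hcon
      have := hz z hcon (by linarith) (by linarith) h3 (by linarith)
      linarith [this.2.2.1]), zero_add,
    cut_h hd hb.le hy1 (fun z hzΩ h0 h1 => by
      constructor
      · intro he
        have := hz z hzΩ (by linarith) (by linarith) (by linarith) h1
        linarith [this.1]
      · intro he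
        have := hz z hzΩ (by linarith) (by linarith) (by linarith) h1
        linarith [this.2.1]),
    zero (y0 := b1) (y1 := y1) hd ha.le hy1 (fun z h1 h2 h3 h4 => by
      by_contra hcon
      have := hz z hcon (by linarith) (by linarith) (by linarith) h4
      linarith [this.2.2.2]), add_zero]

end Pool.Agent.R159.HN.RECT
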