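import Mathlib
import Pool.Agent.R159.HN.Stm

/-!
# Project HN, piece SQ (helper567)
-/

set_option autoImplicit false

namespace Pool.Agent.R159.HN.SQ

open MeasureTheory Set Complex
open Pool.Agent.R159.HN

theorem rho_pos (m : ℕ) : 0 < rho m := by
  unfold rho q
  positivity

theorem ctr_succ (m : ℕ) (d : ℕ → Bool) :
    ctr (m + 1) d = ctr m d + (if d m then q ^ (m + 1) else 0) := by
  unfold ctr
  rw [Finset.sum_range_succ]

theorem ctr_congr (m : ℕ) (d e : ℕ → Bool) (h : ∀ k < m, d k = e k) : ctr m d = ctr m e := by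
  unfold ctr
  refine Finset.sum_congr rfl fun k hk => ?_
  rw [h k (Finset.mem_range.1 hk)]

/-- points of the Cantor set near a centre -/
theorem near (hC : S_CAN) (m : ℕ) (d e : ℕ → Bool) (h : |pt d - ctr m e| ≤ rho m) :
    (0 ≤ pt d - ctr m e ∧ pt d - ctr m e ≤ q ^ (m + 1) / 99) ∨
    (0 ≤ pt d - (ctr m e + q ^ (m + 1)) ∧ pt d - (ctr m e + q ^ (m + 1)) ≤ q ^ (m + 1) / 99) := by
  obtain ⟨hC1, hC2, -, -, -⟩ := hC
  have hr := rho_pos m
  have hq : q ^ m = 4 * rho m := by unfold rho; ring
  have ha : ∀ k < m, d k = e k := by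
    by_contra hcon
    have h1 := hC2 m d e hcon
    rw [hq] at h1
    linarith
  have h2 := hC1 (m + 1) d d (fun k hk => rfl)
  rw [ctr_succ, ctr_congr m d e ha] at h2
  by_cases hd : d m = true
  · right
    rw [if_pos hd] at h2
    exact h2
  · left
    rw [if_neg hd, add_zero] at h2
    exact h2

theorem main (hC : S_CAN) (hR : S_RECT) : S_SQ := by
  intro h hh
  have hE : IsOpen Eᶜ := hC.2.2.2.1
  constructor
  · intro m e
    set c := ctr m e with hc
    set r := rho m with hr
    set s := q ^ (m + 1) with hs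
    have hr0 : 0 < r := rho_pos m
    have hsr : s = r / 25 := by
      rw [hs, hr]
      unfold rho q
      rw [pow_succ]
      ring
    have hr' : rho (m + 1) = s / 4 := by
      rw [hs]
      rfl
    have hs0 : 0 < s := by rw [hsr]; positivity
    rw [hr']
    unfold sq
    rw [hR.1 Eᶜ h (c - r) (c + s / 2) (c + r) (-r) r hE hh (by linarith) (by linarith) (by linarith)
      (by
        intro z hz _ _
        rw [Set.notMem_compl_iff] at hz
        obtain ⟨d, rfl⟩ := hz
        simp only [Complex.ofReal_im]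
        constructor
        · linarith
        · linarith)]
    congr 1
    · refine hR.2 Eᶜ h (c - r) (c - s / 4) (c + s / 4) (c + s / 2) (-r) (-(s / 4)) (s / 4) r hE hh
        (by linarith) (by linarith) (by linarith) (by linarith) (by linarith) (by linarith) ?_
      intro z hz h1 h2 _ _
      rw [Set.notMem_compl_iff] at hz
      obtain ⟨d, rfl⟩ := hz
      simp only [Complex.ofReal_im, Complex.ofReal_re] at h1 h2 ⊢
      rcases near hC m d e (abs_le.2 ⟨by linarith, by linarith⟩) with ⟨k1, k2⟩ | ⟨k1, k2⟩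
      · refine ⟨?_, ?_, ?_, ?_⟩ <;> linarith
      · exfalso
        linarith
    · refine hR.2 Eᶜ h (c + s / 2) (c + s - s / 4) (c + s + s / 4) (c + r) (-r) (-(s / 4)) (s / 4) r
        hE hh (by linarith) (by linarith) (by linarith) (by linarith) (by linarith) (by linarith) ?_
      intro z hz h1 h2 _ _
      rw [Set.notMem_compl_iff] at hz
      obtain ⟨d, rfl⟩ := hz
      simp only [Complex.ofReal_im, Complex.ofReal_re] at h1 h2 ⊢
      rcases near hC m d e (abs_le.2 ⟨by linarith, by linarith⟩) with ⟨k1, k2⟩ | ⟨k1, k2⟩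
      · exfalso
        linarith
      · refine ⟨?_, ?_, ?_, ?_⟩ <;> linarith
  · intro R hR4
    have hrho : rho 0 = 1 / 4 := by unfold rho; norm_num
    rw [hrho]
    unfold sq
    refine hR.2 Eᶜ h (0 - R) (0 - 1 / 4) (0 + 1 / 4) (0 + R) (-R) (-(1 / 4)) (1 / 4) R hE hh
      (by linarith) (by norm_num) (by linarith) (by linarith) (by norm_num) (by linarith) ?_
    intro z hz h1 h2 _ _
    rw [Set.notMem_compl_iff] at hz
    obtain ⟨d, rfl⟩ := hz
    simp only [Complex.ofReal_im, Complex.ofReal_re] at h1 h2 ⊢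
    obtain ⟨k1, k2⟩ := hC.1 0 d d (fun k hk => rfl)
    have hc0 : ctr 0 d = 0 := by simp [ctr]
    rw [hc0, sub_zero] at k1 k2
    rw [pow_zero] at k2
    refine ⟨?_, ?_, ?_, ?_⟩ <;> linarith

end Pool.Agent.R159.HN.SQ
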