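import Mathlib
import Pool.Agent.R159.HN.Stm

/-!
# Project HN, piece W (helper567)
-/

set_option autoImplicit false

namespace Pool.Agent.R159.HN.W

open MeasureTheory Set Complex
open Pool.Agent.R159.HN

theorem horiz_ne (c x : ℝ) (hc : c ≠ 0) : (x : ℂ) + (c : ℂ) * I ≠ 0 := by
  intro h
  have := congrArg Complex.im h
  simp at this
  exact hc this

theorem vert_ne (c y : ℝ) (hc : c ≠ 0) : (c : ℂ) + (y : ℂ) * I ≠ 0 := by
  intro h
  have := congrArg Complex.re h
  simp at this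
  exact hc this

theorem horiz_cont (c : ℝ) (hc : c ≠ 0) : Continuous fun x : ℝ => 1 / ((x : ℂ) + (c : ℂ) * I) :=
  continuous_const.div (Complex.continuous_ofReal.add continuous_const) fun x => horiz_ne c x hc

theorem vert_cont (c : ℝ) (hc : c ≠ 0) : Continuous fun y : ℝ => 1 / ((c : ℂ) + (y : ℂ) * I) :=
  continuous_const.div (continuous_const.add (Complex.continuous_ofReal.mul continuous_const))
    fun x => vert_ne c x hc

theorem atan_int : ∫ x in (0 - 1 : ℝ)..(0 + 1), (2 * (1 + x ^ 2)⁻¹ : ℝ) = Real.pi := by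
  rw [intervalIntegral.integral_const_mul, integral_inv_one_add_sq]
  rw [zero_sub, zero_add, Real.arctan_neg, Real.arctan_one]
  ring

theorem atan_int' : ∫ x in (-1 : ℝ)..1, (2 * (1 + x ^ 2)⁻¹ : ℝ) = Real.pi := by
  rw [intervalIntegral.integral_const_mul, integral_inv_one_add_sq]
  rw [Real.arctan_neg, Real.arctan_one]
  ring

theorem part1 : sq (fun w => 1 / w) 0 1 ≠ 0 := by
  have e1 : (∫ x : ℝ in (0 - 1 : ℝ)..(0 + 1), 1 / ((x : ℂ) + ((-1 : ℝ) : ℂ) * I)) -
      ∫ x : ℝ in (0 - 1 : ℝ)..(0 + 1), 1 / ((x : ℂ) + ((1 : ℝ) : ℂ) * I) = (Real.pi : ℂ) * I := by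
    rw [← intervalIntegral.integral_sub ((horiz_cont (-1) (by norm_num)).intervalIntegrable _ _)
      ((horiz_cont 1 (by norm_num)).intervalIntegrable _ _)]
    have e2 : ∀ x : ℝ, 1 / ((x : ℂ) + ((-1 : ℝ) : ℂ) * I) - 1 / ((x : ℂ) + ((1 : ℝ) : ℂ) * I) =
        ((2 * (1 + x ^ 2)⁻¹ : ℝ) : ℂ) * I := by
      intro x
      have h1 := horiz_ne (-1) x (by norm_num)
      have h2 := horiz_ne 1 x (by norm_num)
      have h3 : (1 + (x : ℂ) ^ 2) ≠ 0 := by
        have h30 : (1 + x ^ 2 : ℝ) ≠ 0 := by positivity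
        have h31 : ((1 + x ^ 2 : ℝ) : ℂ) ≠ 0 := Complex.ofReal_ne_zero.2 h30
        push_cast at h31
        exact h31
      push_cast at h1 h2 ⊢
      rw [div_sub_div _ _ h1 h2, div_eq_iff (mul_ne_zero h1 h2)]
      have h4 : ((x : ℂ) + -1 * I) * ((x : ℂ) + 1 * I) = 1 + (x : ℂ) ^ 2 := by
        ring_nf
        rw [Complex.I_sq]
        ring
      rw [h4]
      field_simp
      ring
    rw [intervalIntegral.integral_congr (fun x _ => e2 x), intervalIntegral.integral_mul_const,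
      intervalIntegral.integral_ofReal, atan_int]
  have e3 : I • (∫ y : ℝ in (-1 : ℝ)..1, 1 / (((0 + 1 : ℝ) : ℂ) + (y : ℂ) * I)) -
      I • ∫ y : ℝ in (-1 : ℝ)..1, 1 / (((0 - 1 : ℝ) : ℂ) + (y : ℂ) * I) = (Real.pi : ℂ) * I := by
    rw [← smul_sub, ← intervalIntegral.integral_sub
      ((vert_cont (0 + 1) (by norm_num)).intervalIntegrable _ _)
      ((vert_cont (0 - 1) (by norm_num)).intervalIntegrable _ _)]
    have e2 : ∀ y : ℝ, 1 / (((0 + 1 : ℝ) : ℂ) + (y : ℂ) * I) -
        1 / (((0 - 1 : ℝ) : ℂ) + (y : ℂ) * I) = ((2 * (1 + y ^ 2)⁻¹ : ℝ) : ℂ) := by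
      intro y
      have h1 := vert_ne (0 + 1) y (by norm_num)
      have h2 := vert_ne (0 - 1) y (by norm_num)
      have h3 : (1 + (y : ℂ) ^ 2) ≠ 0 := by
        have h30 : (1 + y ^ 2 : ℝ) ≠ 0 := by positivity
        have h31 : ((1 + y ^ 2 : ℝ) : ℂ) ≠ 0 := Complex.ofReal_ne_zero.2 h30
        push_cast at h31
        exact h31
      push_cast at h1 h2 ⊢
      rw [div_sub_div _ _ h1 h2, div_eq_iff (mul_ne_zero h1 h2)]
      have h4 : ((0 : ℂ) + 1 + (y : ℂ) * I) * (0 - 1 + (y : ℂ) * I) = -(1 + (y : ℂ) ^ 2) := by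
        ring_nf
        rw [Complex.I_sq]
        ring
      rw [h4]
      field_simp
      ring
    rw [intervalIntegral.integral_congr (fun x _ => e2 x), intervalIntegral.integral_ofReal,
      atan_int', smul_eq_mul, mul_comm]
  have e4 : sq (fun w => 1 / w) 0 1 = 2 * ((Real.pi : ℂ) * I) := by
    unfold sq rect
    simp only []
    rw [e1, add_sub_assoc, e3]
    ring
  rw [e4]
  refine mul_ne_zero two_ne_zero (mul_ne_zero ?_ Complex.I_ne_zero)
  exact Complex.ofReal_ne_zero.2 Real.pi_ne_zero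

theorem mem_h {a r x y : ℝ} (hy : |y| = r) (hx : x ∈ Set.Icc (a - r) (a + r)) :
    (x : ℂ) + (y : ℂ) * I ∈ bd a r := by
  right
  refine ⟨?_, ?_⟩
  · simp only [add_re, ofReal_re, mul_re, I_re, mul_zero, ofReal_im, I_im, mul_one, sub_self,
      add_zero]
    rw [abs_le]
    constructor
    · linarith [hx.1]
    · linarith [hx.2]
  · simp only [add_im, ofReal_im, mul_im, ofReal_re, I_im, mul_one, I_re, mul_zero, add_zero,
      zero_add]
    exact hy

theorem mem_v {a r x y : ℝ} (hx : |x - a| = r) (hy : y ∈ Set.Icc (-r) r) :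
    (x : ℂ) + (y : ℂ) * I ∈ bd a r := by
  left
  refine ⟨?_, ?_⟩
  · simp only [add_re, ofReal_re, mul_re, I_re, mul_zero, ofReal_im, I_im, mul_one, sub_self,
      add_zero]
    exact hx
  · simp only [add_im, ofReal_im, mul_im, ofReal_re, I_im, mul_one, I_re, mul_zero, add_zero,
      zero_add]
    exact abs_le.2 hy

theorem part2 (h : ℂ → ℂ) (a r M : ℝ) (hr : 0 < r) (hM : ∀ w ∈ bd a r, ‖h w‖ ≤ M) :
    ‖sq h a r‖ ≤ 8 * r * M := by
  have k1 : ∀ y : ℝ, |y| = r → ‖∫ x : ℝ in (a - r)..(a + r), h (x + y * I)‖ ≤ M * (2 * r) := by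
    intro y hy
    have := intervalIntegral.norm_integral_le_of_norm_le_const (a := a - r) (b := a + r)
      (f := fun x : ℝ => h (x + y * I)) (C := M) (fun x hx => by
        rw [Set.uIoc_of_le (by linarith)] at hx
        exact hM _ (mem_h hy (Set.Ioc_subset_Icc_self hx)))
    rwa [show a + r - (a - r) = 2 * r by ring, abs_of_pos (by linarith)] at this
  have k2 : ∀ x : ℝ, |x - a| = r → ‖∫ y : ℝ in (-r)..r, h (x + y * I)‖ ≤ M * (2 * r) := by
    intro x hx
    have := intervalIntegral.norm_integral_le_of_norm_le_const (a := -r) (b := r)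
      (f := fun y : ℝ => h (x + y * I)) (C := M) (fun y hy => by
        rw [Set.uIoc_of_le (by linarith)] at hy
        exact hM _ (mem_v hx (Set.Ioc_subset_Icc_self hy)))
    rwa [show r - -r = 2 * r by ring, abs_of_pos (by linarith)] at this
  have a1 := k1 (-r) (by rw [abs_neg, abs_of_pos hr])
  have a2 := k1 r (abs_of_pos hr)
  have a3 := k2 (a + r) (by rw [add_sub_cancel_left, abs_of_pos hr])
  have a4 := k2 (a - r) (by rw [show a - r - a = -r by ring, abs_neg, abs_of_pos hr])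
  unfold sq rect
  refine le_trans (norm_sub_le _ _) ?_
  refine le_trans (add_le_add_left (norm_add_le _ _) _) ?_
  refine le_trans (add_le_add_left (add_le_add_left (norm_sub_le _ _) _) _) ?_
  rw [norm_smul, norm_smul, Complex.norm_I, one_mul, one_mul]
  linarith

theorem part3 (h₁ h₂ : ℂ → ℂ) (c₁ c₂ : ℂ) (a r : ℝ) (hr : 0 < r) (k₁ : ContinuousOn h₁ (bd a r))
    (k₂ : ContinuousOn h₂ (bd a r)) :
    sq (fun w => c₁ * h₁ w + c₂ * h₂ w) a r = c₁ * sq h₁ a r + c₂ * sq h₂ a r := by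
  have ih : ∀ h : ℂ → ℂ, ContinuousOn h (bd a r) → ∀ y : ℝ, |y| = r →
      IntervalIntegrable (fun x : ℝ => h (x + y * I)) volume (a - r) (a + r) := by
    intro h hh y hy
    refine ContinuousOn.intervalIntegrable ?_
    refine hh.comp (by fun_prop) ?_
    intro x hx
    rw [Set.uIcc_of_le (by linarith)] at hx
    exact mem_h hy hx
  have iv : ∀ h : ℂ → ℂ, ContinuousOn h (bd a r) → ∀ x : ℝ, |x - a| = r →
      IntervalIntegrable (fun y : ℝ => h (x + y * I)) volume (-r) r := by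
    intro h hh x hx
    refine ContinuousOn.intervalIntegrable ?_
    refine hh.comp (by fun_prop) ?_
    intro y hy
    rw [Set.uIcc_of_le (by linarith)] at hy
    exact mem_v hx hy
  have lh : ∀ y : ℝ, |y| = r → ∫ x : ℝ in (a - r)..(a + r), (c₁ * h₁ (x + y * I) +
      c₂ * h₂ (x + y * I)) = c₁ * (∫ x : ℝ in (a - r)..(a + r), h₁ (x + y * I)) +
      c₂ * ∫ x : ℝ in (a - r)..(a + r), h₂ (x + y * I) := by
    intro y hy
    rw [intervalIntegral.integral_add ((ih h₁ k₁ y hy).const_mul c₁)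
      ((ih h₂ k₂ y hy).const_mul c₂), intervalIntegral.integral_const_mul,
      intervalIntegral.integral_const_mul]
  have lv : ∀ x : ℝ, |x - a| = r → ∫ y : ℝ in (-r)..r, (c₁ * h₁ (x + y * I) +
      c₂ * h₂ (x + y * I)) = c₁ * (∫ y : ℝ in (-r)..r, h₁ (x + y * I)) +
      c₂ * ∫ y : ℝ in (-r)..r, h₂ (x + y * I) := by
    intro x hx
    rw [intervalIntegral.integral_add ((iv h₁ k₁ x hx).const_mul c₁)
      ((iv h₂ k₂ x hx).const_mul c₂), intervalIntegral.integral_const_mul,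
      intervalIntegral.integral_const_mul]
  unfold sq rect
  simp only []
  rw [lh (-r) (by rw [abs_neg, abs_of_pos hr]), lh r (abs_of_pos hr),
    lv (a + r) (by rw [add_sub_cancel_left, abs_of_pos hr]),
    lv (a - r) (by rw [show a - r - a = -r by ring, abs_neg, abs_of_pos hr])]
  simp only [smul_eq_mul]
  ring

theorem main : S_W := ⟨part1, part2, part3⟩

end Pool.Agent.R159.HN.W
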